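import Mathlib
import Pool.Agent.H10.RP.StmT

/-!
Project RP, part PTW: the pointwise inequality for the transforms of the admissible weights.
-/

set_option autoImplicit false

open MeasureTheory ENNReal Filter Topology
open scoped ContDiff

namespace Pool.Agent.H87.RP.PTW

open Pool.Agent.H10.RP

theorem nu_int2 {ν : ℝ → ℝ} (h : Nu ν) : Integrable fun y => ν y * (1 + y ^ 2) := by
  obtain ⟨hc, h0, he, ⟨C, c, hc0, hC⟩, hp⟩ := h
  have hC0 : 0 ≤ C := by
    have h1 := (h0 0).trans (hC 0)
    simpa using h1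
  refine Integrable.mono' ((integrable_inv_one_add_sq).const_mul (C * (2 * (1 + 24 / c ^ 4)))) 
    (hc.mul (by fun_prop)).aestronglyMeasurable (Eventually.of_forall fun y => ?_)
  have h1 : (c * |y|) ^ 4 / (Nat.factorial 4 : ℝ) ≤ Real.exp (c * |y|) :=
    Real.pow_div_factorial_le_exp _ (by positivity) 4
  have h2 : y ^ 4 ≤ 24 / c ^ 4 * Real.exp (c * |y|) := by
    have h3 : (c * |y|) ^ 4 = c ^ 4 * y ^ 4 := by
      rw [mul_pow]
      congr 1
      rw [← abs_pow, abs_of_nonneg (by positivity)]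
    have h4 : (Nat.factorial 4 : ℝ) = 24 := by norm_num [Nat.factorial]
    rw [h3, h4] at h1
    rw [div_mul_eq_mul_div, le_div_iff₀ (by positivity)]
    linarith
  have h5 : 1 ≤ Real.exp (c * |y|) := Real.one_le_exp (by positivity)
  have h6 : (1 + y ^ 2) ^ 2 ≤ 2 * (1 + 24 / c ^ 4) * Real.exp (c * |y|) := by
    nlinarith [sq_nonneg (y ^ 2 - 1)]
  have h7 : ν y * (1 + y ^ 2) ^ 2 ≤ C * (2 * (1 + 24 / c ^ 4)) := by
    have h8 : ν y * (1 + y ^ 2) ^ 2 ≤ (C * Real.exp (-(c * |y|))) *
        (2 * (1 + 24 / c ^ 4) * Real.exp (c * |y|)) :=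
      mul_le_mul (hC y) h6 (by positivity) (mul_nonneg hC0 (Real.exp_pos _).le)
    refine h8.trans (le_of_eq ?_)
    have h9 : Real.exp (-(c * |y|)) * Real.exp (c * |y|) = 1 := by
      rw [← Real.exp_add]; simp
    linear_combination C * (2 * (1 + 24 / c ^ 4)) * h9
  rw [Real.norm_of_nonneg (mul_nonneg (h0 y) (by positivity)), ← div_eq_mul_inv,
    le_div_iff₀ (by positivity)]
  linarith

/-- integrability of `ν φ` with `|φ| ≤ K (1 + y²)` -/
theorem nu_int {ν : ℝ → ℝ} (h : Nu ν) {φ : ℝ → ℝ} (hφ : AEStronglyMeasurable φ) {K : ℝ}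
    (hK : ∀ y, |φ y| ≤ K * (1 + y ^ 2)) : Integrable fun y => ν y * φ y := by
  refine Integrable.mono' ((nu_int2 h).const_mul K) (h.1.aestronglyMeasurable.mul hφ)
    (Eventually.of_forall fun y => ?_)
  rw [Real.norm_eq_abs, abs_mul, abs_of_nonneg (h.2.1 y)]
  have := mul_le_mul_of_nonneg_left (hK y) (h.2.1 y)
  linarith

theorem abs_le_one_add_sq (y : ℝ) : |y| ≤ 1 * (1 + y ^ 2) := by
  rw [abs_le]
  constructor <;> nlinarith [sq_nonneg (y - 1), sq_nonneg (y + 1)]

theorem bd_cos (h y : ℝ) : |Real.cos (h * y)| ≤ 1 * (1 + y ^ 2) :=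
  (Real.abs_cos_le_one _).trans (by nlinarith [sq_nonneg y])

theorem bd_ysin (h y : ℝ) : |y * Real.sin (h * y)| ≤ 1 * (1 + y ^ 2) := by
  rw [abs_mul]
  refine le_trans ?_ (abs_le_one_add_sq y)
  exact mul_le_of_le_one_right (abs_nonneg _) (Real.abs_sin_le_one _)

theorem bd_ysin' (h y : ℝ) : |y * Real.sin (h * y)| ≤ 1 * (1 + y ^ 2) := bd_ysin h y

theorem bd_y2cos (h y : ℝ) : |y ^ 2 * Real.cos (h * y)| ≤ 1 * (1 + y ^ 2) := by
  rw [abs_mul, abs_of_nonneg (sq_nonneg y)]
  have := mul_le_of_le_one_right (sq_nonneg y) (Real.abs_cos_le_one (h * y))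
  linarith

theorem int_cos {ν : ℝ → ℝ} (h : Nu ν) (k : ℝ) : Integrable fun y => ν y * Real.cos (k * y) :=
  nu_int h (by fun_prop : Continuous fun y => Real.cos (k * y)).aestronglyMeasurable (bd_cos k)

theorem int_ysin {ν : ℝ → ℝ} (h : Nu ν) (k : ℝ) :
    Integrable fun y => ν y * (y * Real.sin (k * y)) :=
  nu_int h (by fun_prop : Continuous fun y => y * Real.sin (k * y)).aestronglyMeasurable (bd_ysin k)

theorem int_y2cos {ν : ℝ → ℝ} (h : Nu ν) (k : ℝ) :
    Integrable fun y => ν y * (y ^ 2 * Real.cos (k * y)) :=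
  nu_int h (by fun_prop : Continuous fun y => y ^ 2 * Real.cos (k * y)).aestronglyMeasurable
    (bd_y2cos k)

/-- the transform of `ν (1 + y²)` -/
noncomputable def Ph (ν : ℝ → ℝ) (k : ℝ) : ℝ := ∫ y : ℝ, ν y * (1 + y ^ 2) * Real.cos (k * y)

theorem Gh_deriv {ν : ℝ → ℝ} (h : Nu ν) (k : ℝ) : HasDerivAt (Gh ν) (Gh ν k - Ph ν k) k := by
  have h1 := hasDerivAt_integral_of_dominated_loc_of_deriv_le (μ := volume)
    (F := fun k y => ν y * (Real.cos (k * y) - y * Real.sin (k * y)))
    (F' := fun k y => ν y * (-(y * Real.sin (k * y)) - y ^ 2 * Real.cos (k * y)))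
    (x₀ := k) (s := Set.univ) (bound := fun y => 2 * (ν y * (1 + y ^ 2)))
    Filter.univ_mem
    (Eventually.of_forall fun k => (h.1.mul (by fun_prop)).aestronglyMeasurable)
    (by
      have h2 := (int_cos h k).sub (int_ysin h k)
      refine h2.congr (Eventually.of_forall fun y => ?_)
      simp only [Pi.sub_apply]
      ring)
    ((h.1.mul (by fun_prop)).aestronglyMeasurable)
    (Eventually.of_forall fun y k _ => by
      rw [Real.norm_eq_abs, abs_mul, abs_of_nonneg (h.2.1 y)]
      have h3 : |-(y * Real.sin (k * y)) - y ^ 2 * Real.cos (k * y)| ≤ 2 * (1 + y ^ 2) := by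
        refine (abs_sub _ _).trans ?_
        rw [abs_neg]
        have h4 := bd_ysin k y
        have h5 := bd_y2cos k y
        linarith
      have := mul_le_mul_of_nonneg_left h3 (h.2.1 y)
      linarith)
    ((nu_int2 h).const_mul 2)
    (Eventually.of_forall fun y k _ => by
      have hk : HasDerivAt (fun k : ℝ => k * y) y k := by
        simpa using (hasDerivAt_id k).mul_const y
      have h4 : HasDerivAt (fun k : ℝ => Real.cos (k * y) - y * Real.sin (k * y))
          (-Real.sin (k * y) * y - y * (Real.cos (k * y) * y)) k :=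
        hk.cos.sub (hk.sin.const_mul y)
      exact (h4.const_mul (ν y)).congr_deriv (by ring))
  have h2 := h1.2
  have h3 : ∫ y, ν y * (-(y * Real.sin (k * y)) - y ^ 2 * Real.cos (k * y)) =
      Gh ν k - Ph ν k := by
    unfold Gh Ph
    rw [← integral_sub]
    · congr 1
      funext y
      ring
    · have h4 := (int_cos h k).sub (int_ysin h k)
      refine h4.congr (Eventually.of_forall fun y => ?_)
      simp only [Pi.sub_apply]
      ring
    · have h4 := (int_cos h k).add (int_y2cos h k)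
      refine h4.congr (Eventually.of_forall fun y => ?_)
      simp only [Pi.add_apply]
      ring
  rw [h3] at h2
  exact h2

theorem Ph_even {ν : ℝ → ℝ} (k : ℝ) : Ph ν (-k) = Ph ν k := by
  unfold Ph
  congr 1
  funext y
  rw [neg_mul, Real.cos_neg]

theorem Ph_nonneg {ν : ℝ → ℝ} (h : Nu ν) (k : ℝ) : 0 ≤ Ph ν k := h.2.2.2.2 k

/-- the sum of `Gh` at `k` and `-k` -/
theorem Gh_add {ν : ℝ → ℝ} (h : Nu ν) (k : ℝ) : Gh ν k + Gh ν (-k) = 2 * Fh ν k := by
  have h5 : ∀ k, Gh ν k = Fh ν k - ∫ y, ν y * (y * Real.sin (k * y)) := by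
    intro k
    unfold Gh Fh
    rw [← integral_sub (int_cos h k) (int_ysin h k)]
    congr 1
    funext y
    ring
  have h6 : Fh ν (-k) = Fh ν k := by
    unfold Fh
    congr 1
    funext y
    rw [neg_mul, Real.cos_neg]
  have h7 : ∫ y, ν y * (y * Real.sin (-k * y)) = - ∫ y, ν y * (y * Real.sin (k * y)) := by
    rw [← integral_neg]
    congr 1
    funext y
    rw [neg_mul, Real.sin_neg]
    ring
  rw [h5 k, h5 (-k), h6, h7]
  ring

theorem Gh_bd {ν : ℝ → ℝ} (h : Nu ν) (k : ℝ) : |Gh ν k| ≤ 2 * ∫ y, ν y * (1 + y ^ 2) := by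
  unfold Gh
  rw [← integral_const_mul]
  refine (norm_integral_le_integral_norm (μ := volume)
    (fun y => ν y * (Real.cos (k * y) - y * Real.sin (k * y)))).trans ?_
  refine integral_mono_of_nonneg (Eventually.of_forall fun y => norm_nonneg _)
    ((nu_int2 h).const_mul 2) (Eventually.of_forall fun y => ?_)
  show ‖ν y * (Real.cos (k * y) - y * Real.sin (k * y))‖ ≤ 2 * (ν y * (1 + y ^ 2))
  rw [Real.norm_eq_abs, abs_mul, abs_of_nonneg (h.2.1 y)]
  have h3 : |Real.cos (k * y) - y * Real.sin (k * y)| ≤ 2 * (1 + y ^ 2) := by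
    refine (abs_sub _ _).trans ?_
    have h4 := bd_ysin k y
    have h5 := bd_cos k y
    linarith
  have := mul_le_mul_of_nonneg_left h3 (h.2.1 y)
  linarith

theorem A_deriv {ν : ℝ → ℝ} (h : Nu ν) (k : ℝ) :
    HasDerivAt (fun k => Real.exp (-k) * Gh ν k) (-(Real.exp (-k) * Ph ν k)) k := by
  have h1 : HasDerivAt (fun k : ℝ => Real.exp (-k)) (-Real.exp (-k)) k := by
    have := (hasDerivAt_id k).neg.exp
    simpa using this
  exact (h1.mul (Gh_deriv h k)).congr_deriv (by ring)

theorem Gh_nonneg {ν : ℝ → ℝ} (h : Nu ν) (k : ℝ) : 0 ≤ Gh ν k := by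
  have hanti : Antitone fun k => Real.exp (-k) * Gh ν k := by
    refine antitone_of_deriv_nonpos (fun k => (A_deriv h k).differentiableAt) fun k => ?_
    rw [(A_deriv h k).deriv]
    have := mul_nonneg (Real.exp_pos (-k)).le (Ph_nonneg h k)
    linarith
  have hlim : Tendsto (fun k => Real.exp (-k) * Gh ν k) atTop (𝓝 0) := by
    rw [tendsto_zero_iff_abs_tendsto_zero]
    refine squeeze_zero (g := fun k => Real.exp (-k) * (2 * ∫ y, ν y * (1 + y ^ 2)))
      (fun k => abs_nonneg _) (fun k => ?_) ?_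
    · show |Real.exp (-k) * Gh ν k| ≤ _
      rw [abs_mul, abs_of_pos (Real.exp_pos _)]
      exact mul_le_mul_of_nonneg_left (Gh_bd h k) (Real.exp_pos _).le
    · have := (Real.tendsto_exp_neg_atTop_nhds_zero).mul_const (2 * ∫ y, ν y * (1 + y ^ 2))
      simpa using this
  have h1 : 0 ≤ Real.exp (-k) * Gh ν k := hanti.le_of_tendsto hlim k
  exact nonneg_of_mul_nonneg_right h1 (Real.exp_pos _)

theorem t : R_PTW := by
  intro ν h
  have hG := Gh_nonneg h
  refine ⟨fun k => ?_, hG, fun X k => ?_⟩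
  · have := Gh_add h k
    linarith [hG k, hG (-k)]
  · -- `R s = e^T A(s) + e^(-T) A(-s)`
    set T := X + k with hT
    set R : ℝ → ℝ := fun s => Real.exp T * (Real.exp (-s) * Gh ν s) +
      Real.exp (-T) * (Real.exp (-(-s)) * Gh ν (-s)) with hR
    have hd : ∀ s, HasDerivAt R (Ph ν s * (Real.exp (s - T) - Real.exp (T - s))) s := by
      intro s
      have h1 := (A_deriv h s).const_mul (Real.exp T)
      have h2 : HasDerivAt (fun s => Real.exp (-(-s)) * Gh ν (-s))
          (Real.exp (-(-s)) * Ph ν (-s)) s := by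
        have h3 := (A_deriv h (-s)).comp s (hasDerivAt_neg s)
        simpa [Function.comp_def] using h3
      have h4 := h1.add (h2.const_mul (Real.exp (-T)))
      refine h4.congr_deriv ?_
      rw [Ph_even, neg_neg, Real.exp_sub, Real.exp_sub, Real.exp_neg, Real.exp_neg]
      have := (Real.exp_pos s).ne'
      have := (Real.exp_pos T).ne'
      field_simp
      ring
    have hRT : R T = 2 * Fh ν T := by
      rw [hR, ← Gh_add h T]
      simp only
      rw [neg_neg, ← mul_assoc, ← mul_assoc, ← Real.exp_add, ← Real.exp_add]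
      simp
    have hRk : R k = Gh ν k * Real.exp X + Gh ν (-k) * Real.exp (-X) := by
      rw [hR]
      simp only
      rw [neg_neg, ← mul_assoc, ← mul_assoc, ← Real.exp_add, ← Real.exp_add, hT]
      rw [show X + k + -k = X by ring, show -(X + k) + k = -X by ring]
      ring
    have hcont : Continuous R := continuous_iff_continuousAt.2 fun s => (hd s).continuousAt
    rw [← hRT, ← hRk]
    rcases le_total T k with hle | hle
    · have hmono : MonotoneOn R (Set.Ici T) := by
        refine monotoneOn_of_deriv_nonneg (convex_Ici T) hcont.continuousOn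
          (fun s _ => (hd s).differentiableAt.differentiableWithinAt) fun s hs => ?_
        rw [interior_Ici] at hs
        rw [(hd s).deriv]
        refine mul_nonneg (Ph_nonneg h s) (sub_nonneg.2 (Real.exp_le_exp.2 ?_))
        have : T < s := hs
        linarith
      exact hmono (Set.mem_Ici.2 le_rfl) (Set.mem_Ici.2 hle) hle
    · have hanti : AntitoneOn R (Set.Iic T) := by
        refine antitoneOn_of_deriv_nonpos (convex_Iic T) hcont.continuousOn
          (fun s _ => (hd s).differentiableAt.differentiableWithinAt) fun s hs => ?_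
        rw [interior_Iic] at hs
        rw [(hd s).deriv]
        refine mul_nonpos_of_nonneg_of_nonpos (Ph_nonneg h s)
          (sub_nonpos.2 (Real.exp_le_exp.2 ?_))
        have : s < T := hs
        linarith
      exact hanti (Set.mem_Iic.2 hle) (Set.mem_Iic.2 le_rfl) hle

end Pool.Agent.H87.RP.PTW
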