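import Mathlib
import Pool.Agent.H10.RP.StmT
import Pool.Agent.H87.RP.PTW

/-!
Project RP: integration of one variable in the kernel integrals (for CM2 and CM3).
-/

set_option autoImplicit false

open MeasureTheory ENNReal Filter Topology
open scoped ContDiff

namespace Pool.Agent.H87.RP

open Pool.Agent.H10.RP

/-- the norm of a complex number to a complex power -/
noncomputable def np (c s : ℂ) : ℂ := ((‖c‖ : ℝ) : ℂ) ^ s

/-- constant of the composition formula -/
noncomputable def BB (a b : ℂ) : ℂ := (Real.pi : ℂ) * (gm a * gm b / gm (a + b))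

theorem np_norm (c s : ℂ) (hs : s.re ≠ 0) : ‖np c s‖ = ‖c‖ ^ s.re := by
  unfold np
  rcases eq_or_ne c 0 with rfl | hc
  · have hs' : s ≠ 0 := fun h => hs (by rw [h, Complex.zero_re])
    simp only [norm_zero, Complex.ofReal_zero]
    rw [Complex.zero_cpow hs', norm_zero, Real.zero_rpow hs]
  · rw [Complex.norm_cpow_eq_rpow_re_of_pos (norm_pos_iff.2 hc)]

theorem np_meas {α : Type*} [MeasurableSpace α] {c s : α → ℂ} (hc : Measurable c)
    (hs : Measurable s) : Measurable fun y => np (c y) (s y) := by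
  unfold np
  exact (Complex.measurable_ofReal.comp hc.norm).pow hs

theorem np_zero {s : ℂ} (hs : s ≠ 0) : np 0 s = 0 := by
  unfold np
  simp only [norm_zero, Complex.ofReal_zero]
  exact Complex.zero_cpow hs

theorem np_neg (c s : ℂ) : np (-c) s = np c s := by
  unfold np
  rw [norm_neg]

/-- integrability of the product of two powers -/
theorem pow_int (hR : R_RZC) {p0 q0 : ℝ} (hp0 : 0 < p0) (hq0 : 0 < q0) (hpq : p0 + q0 < 2) {x : ℂ}
    (hx : x ≠ 0) : Integrable fun c : ℂ => ‖c‖ ^ (p0 - 2) * ‖x - c‖ ^ (q0 - 2) := by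
  have h1 := (hR p0 q0 (by simpa using hp0) (by simpa using hq0) (by simpa using hpq) x hx).1.norm
  refine h1.congr (Eventually.of_forall fun c => ?_)
  show ‖np c ((p0 : ℂ) - 2) * np (x - c) ((q0 : ℂ) - 2)‖ = _
  have e1 : ((p0 : ℂ) - 2).re = p0 - 2 := by simp
  have e2 : ((q0 : ℂ) - 2).re = q0 - 2 := by simp
  rw [norm_mul, np_norm _ _ (by rw [e1]; linarith), np_norm _ _ (by rw [e2]; linarith), e1, e2]

/-- integrability on the product -/
theorem prod_int (hR : R_RZC) {w p q : ℝ → ℂ} (hw : Integrable w) (hp : Measurable p)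
    (hq : Measurable q) {p0 q0 : ℝ} (hp0 : 0 < p0) (hq0 : 0 < q0) (hpq : p0 + q0 < 2)
    (hpr : ∀ y, (p y).re = p0) (hqr : ∀ y, (q y).re = q0) {x : ℂ} (hx : x ≠ 0) :
    Integrable (fun z : ℝ × ℂ => w z.1 * (np z.2 (p z.1 - 2) * np (x - z.2) (q z.1 - 2)))
      (volume.prod volume) := by
  have h1 : Integrable (fun z : ℝ × ℂ => ‖w z.1‖ * (‖z.2‖ ^ (p0 - 2) * ‖x - z.2‖ ^ (q0 - 2)))
      (volume.prod volume) := hw.norm.mul_prod (pow_int hR hp0 hq0 hpq hx)
  have hm : AEStronglyMeasurable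
      (fun z : ℝ × ℂ => w z.1 * (np z.2 (p z.1 - 2) * np (x - z.2) (q z.1 - 2)))
      (volume.prod volume) := by
    refine (hw.aestronglyMeasurable.comp_fst).mul ?_
    refine Measurable.aestronglyMeasurable ?_
    exact (np_meas measurable_snd ((hp.comp measurable_fst).sub_const _)).mul
      (np_meas (measurable_const.sub measurable_snd) ((hq.comp measurable_fst).sub_const _))
  refine h1.mono' hm (Eventually.of_forall fun z => ?_)
  have e1 : (p z.1 - 2).re = p0 - 2 := by simp [hpr]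
  have e2 : (q z.1 - 2).re = q0 - 2 := by simp [hqr]
  rw [norm_mul, norm_mul, np_norm _ _ (by rw [e1]; linarith), np_norm _ _ (by rw [e2]; linarith),
    e1, e2]

theorem inner_eq (hR : R_RZC) {a b : ℂ} (ha : 0 < a.re) (hb : 0 < b.re) (hab : (a + b).re < 2)
    {x : ℂ} (hx : x ≠ 0) :
    ∫ c : ℂ, np c (a - 2) * np (x - c) (b - 2) = BB a b * np x (a + b - 2) :=
  (hR a b ha hb hab x hx).2

theorem int_BB (hR : R_RZC) {w p q : ℝ → ℂ} (hw : Integrable w) (hp : Measurable p)
    (hq : Measurable q) {p0 q0 : ℝ} (hp0 : 0 < p0) (hq0 : 0 < q0) (hpq : p0 + q0 < 2)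
    (hpr : ∀ y, (p y).re = p0) (hqr : ∀ y, (q y).re = q0) :
    Integrable fun y => w y * BB (p y) (q y) := by
  have h1 := (prod_int hR hw hp hq hp0 hq0 hpq hpr hqr one_ne_zero).integral_prod_left
  refine h1.congr (Eventually.of_forall fun y => ?_)
  simp only
  rw [integral_const_mul, inner_eq hR (by rw [hpr]; exact hp0) (by rw [hqr]; exact hq0)
    (by rw [Complex.add_re, hpr, hqr]; exact hpq) one_ne_zero]
  congr 1
  unfold np
  simp

theorem step_int (hR : R_RZC) {w p q : ℝ → ℂ} (hw : Integrable w) (hp : Measurable p)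
    (hq : Measurable q) {p0 q0 : ℝ} (hp0 : 0 < p0) (hq0 : 0 < q0) (hpq : p0 + q0 < 2)
    (hpr : ∀ y, (p y).re = p0) (hqr : ∀ y, (q y).re = q0) {x : ℂ} (hx : x ≠ 0) :
    Integrable fun y => w y * BB (p y) (q y) * np x (p y + q y - 2) := by
  have h1 := (prod_int hR hw hp hq hp0 hq0 hpq hpr hqr hx).integral_prod_left
  refine h1.congr (Eventually.of_forall fun y => ?_)
  simp only
  rw [integral_const_mul, inner_eq hR (by rw [hpr]; exact hp0) (by rw [hqr]; exact hq0)
    (by rw [Complex.add_re, hpr, hqr]; exact hpq) hx, mul_assoc]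

/-- integration of one variable -/
theorem step (hR : R_RZC) {w p q : ℝ → ℂ} (hw : Integrable w) (hp : Measurable p)
    (hq : Measurable q) {p0 q0 : ℝ} (hp0 : 0 < p0) (hq0 : 0 < q0) (hpq : p0 + q0 < 2)
    (hpr : ∀ y, (p y).re = p0) (hqr : ∀ y, (q y).re = q0) {x : ℂ} (hx : x ≠ 0)
    (h0 : ∀ c, 0 ≤ (∫ y, w y * (np c (p y - 2) * np (x - c) (q y - 2))).re) :
    (∫⁻ c : ℂ, ENNReal.ofReal (∫ y, w y * (np c (p y - 2) * np (x - c) (q y - 2))).re =
      ENNReal.ofReal (∫ y, w y * BB (p y) (q y) * np x (p y + q y - 2)).re) ∧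
    0 ≤ (∫ y, w y * BB (p y) (q y) * np x (p y + q y - 2)).re := by
  have h1 := prod_int hR hw hp hq hp0 hq0 hpq hpr hqr hx
  have h2 : Integrable fun c : ℂ => ∫ y, w y * (np c (p y - 2) * np (x - c) (q y - 2)) :=
    h1.integral_prod_right
  have h3 : ∫ c : ℂ, ∫ y, w y * (np c (p y - 2) * np (x - c) (q y - 2)) =
      ∫ y, w y * BB (p y) (q y) * np x (p y + q y - 2) := by
    rw [integral_integral_swap (f := fun (c : ℂ) (y : ℝ) =>
      w y * (np c (p y - 2) * np (x - c) (q y - 2))) h1.swap]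
    refine integral_congr_ae (Eventually.of_forall fun y => ?_)
    simp only
    rw [integral_const_mul, inner_eq hR (by rw [hpr]; exact hp0) (by rw [hqr]; exact hq0)
      (by rw [Complex.add_re, hpr, hqr]; exact hpq) hx, mul_assoc]
  have h4 : (∫ c : ℂ, ∫ y, w y * (np c (p y - 2) * np (x - c) (q y - 2))).re =
      ∫ c : ℂ, (∫ y, w y * (np c (p y - 2) * np (x - c) (q y - 2))).re :=
    (integral_re h2).symm
  rw [← h3, h4]
  refine ⟨(ofReal_integral_eq_lintegral_ofReal h2.re (Eventually.of_forall h0)).symm, ?_⟩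
  exact integral_nonneg h0

/-- `Gh` as the real part of an integral -/
theorem Gh_re {ν : ℝ → ℝ} (h : Nu ν) (k : ℝ) :
    Integrable (fun y : ℝ => (ν y : ℂ) * (1 - Complex.I * y) * Complex.exp (-(Complex.I * y * k))) ∧
    Gh ν k = (∫ y : ℝ, (ν y : ℂ) * (1 - Complex.I * y) * Complex.exp (-(Complex.I * y * k))).re := by
  have e1 : ∀ y : ℝ, ((ν y : ℂ) * (1 - Complex.I * y) * Complex.exp (-(Complex.I * y * k))).re =
      ν y * (Real.cos (k * y) - y * Real.sin (k * y)) := by
    intro y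
    have e2 : -(Complex.I * y * k) = ((-(k * y) : ℝ) : ℂ) * Complex.I := by
      push_cast
      ring
    rw [e2, Complex.exp_mul_I, ← Complex.ofReal_cos, ← Complex.ofReal_sin, Real.cos_neg,
      Real.sin_neg]
    generalize Real.cos (k * y) = c
    generalize Real.sin (k * y) = s
    simp [Complex.mul_re, Complex.mul_im, Complex.add_re, Complex.sub_re]
    ring
  have hint : Integrable (fun y : ℝ =>
      (ν y : ℂ) * (1 - Complex.I * y) * Complex.exp (-(Complex.I * y * k))) := by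
    have hm : Continuous fun y : ℝ =>
        (ν y : ℂ) * (1 - Complex.I * y) * Complex.exp (-(Complex.I * y * k)) := by
      have := h.1
      fun_prop
    refine ((PTW.nu_int2 h).const_mul 2).mono' hm.aestronglyMeasurable
      (Eventually.of_forall fun y => ?_)
    have e2 : -(Complex.I * y * k) = ((-(k * y) : ℝ) : ℂ) * Complex.I := by
      push_cast
      ring
    rw [norm_mul, norm_mul, e2, Complex.norm_exp_ofReal_mul_I, mul_one, Complex.norm_real,
      Real.norm_of_nonneg (h.2.1 y)]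
    have h1 : ‖(1 : ℂ) - Complex.I * y‖ ≤ 2 * (1 + y ^ 2) := by
      refine (norm_sub_le _ _).trans ?_
      rw [norm_one, norm_mul, Complex.norm_I, one_mul, Complex.norm_real, Real.norm_eq_abs]
      have := PTW.abs_le_one_add_sq y
      nlinarith [sq_nonneg y]
    have := mul_le_mul_of_nonneg_left h1 (h.2.1 y)
    linarith
  refine ⟨hint, ?_⟩
  have h2 : (∫ y : ℝ, (ν y : ℂ) * (1 - Complex.I * y) * Complex.exp (-(Complex.I * y * k))).re =
      ∫ y : ℝ, ((ν y : ℂ) * (1 - Complex.I * y) * Complex.exp (-(Complex.I * y * k))).re :=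
    (integral_re hint).symm
  rw [h2]
  simp only [e1]
  rfl

theorem nuw_int {ν : ℝ → ℝ} (h : Nu ν) :
    Integrable (fun y : ℝ => (ν y : ℂ) * (1 - Complex.I * y)) := by
  have h1 := (Gh_re h 0).1
  simpa using h1

theorem np_exp {c s : ℂ} (hc : c ≠ 0) : np c s = Complex.exp (s * Real.log ‖c‖) := by
  unfold np
  have h1 : ((‖c‖ : ℝ) : ℂ) ≠ 0 := by
    rw [Complex.ofReal_ne_zero]
    exact norm_ne_zero_iff.2 hc
  rw [Complex.cpow_def_of_ne_zero h1, ← Complex.ofReal_log (norm_nonneg c), mul_comm]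

theorem np_add {c : ℂ} (hc : c ≠ 0) (s t : ℂ) : np c s * np c t = np c (s + t) := by
  rw [np_exp hc, np_exp hc, np_exp hc, ← Complex.exp_add]
  congr 1
  ring

theorem gm_ne {a : ℂ} (h0 : 0 < a.re) (h2 : a.re < 2) : gm a ≠ 0 := by
  unfold gm
  refine div_ne_zero (Complex.Gamma_ne_zero_of_re_pos ?_) (Complex.Gamma_ne_zero_of_re_pos ?_)
  · rw [Complex.div_ofNat_re]
    linarith
  · rw [Complex.sub_re, Complex.one_re, Complex.div_ofNat_re]
    linarith

theorem gm_refl {a : ℂ} (h0 : 0 < a.re) (h2 : a.re < 2) : gm (2 - a) * gm a = 1 := by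
  have h3 : Complex.Gamma (a / 2) ≠ 0 := Complex.Gamma_ne_zero_of_re_pos (by
    rw [Complex.div_ofNat_re]
    linarith)
  have h4 : Complex.Gamma (1 - a / 2) ≠ 0 := Complex.Gamma_ne_zero_of_re_pos (by
    rw [Complex.sub_re, Complex.one_re, Complex.div_ofNat_re]
    linarith)
  unfold gm
  rw [show (2 - a) / 2 = 1 - a / 2 by ring, show 1 - (1 - a / 2) = a / 2 by ring,
    div_mul_div_comm, mul_comm (Complex.Gamma (1 - a / 2)), div_self (mul_ne_zero h3 h4)]

theorem gm_conj (a : ℂ) : gm ((starRingEnd ℂ) a) = (starRingEnd ℂ) (gm a) := by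
  unfold gm
  have h2 : (starRingEnd ℂ) 2 = 2 := map_ofNat _ 2
  rw [map_div₀, ← Complex.Gamma_conj, ← Complex.Gamma_conj, map_sub, map_one, map_div₀, h2]

end Pool.Agent.H87.RP
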