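import Mathlib
import Pool.Agent.H87.RP.Step

/-!
Project RP, part CM3: the kernel integral for the exponent 6.
-/

set_option autoImplicit false

open MeasureTheory ENNReal Filter Topology
open scoped ContDiff

namespace Pool.Agent.H87.RP

open Pool.Agent.H10.RP

/-- integration of one variable, plus sign -/
theorem step' (hR : R_RZC) {w p q : ℝ → ℂ} (hw : Integrable w) (hp : Measurable p)
    (hq : Measurable q) {p0 q0 : ℝ} (hp0 : 0 < p0) (hq0 : 0 < q0) (hpq : p0 + q0 < 2)
    (hpr : ∀ y, (p y).re = p0) (hqr : ∀ y, (q y).re = q0) {x : ℂ} (hx : x ≠ 0)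
    (h0 : ∀ c, 0 ≤ (∫ y, w y * (np c (p y - 2) * np (x + c) (q y - 2))).re) :
    (∫⁻ c : ℂ, ENNReal.ofReal (∫ y, w y * (np c (p y - 2) * np (x + c) (q y - 2))).re =
      ENNReal.ofReal (∫ y, w y * BB (p y) (q y) * np x (p y + q y - 2)).re) ∧
    0 ≤ (∫ y, w y * BB (p y) (q y) * np x (p y + q y - 2)).re := by
  have e1 := (Measure.measurePreserving_neg (volume : Measure ℂ)).lintegral_comp_emb
    (MeasurableEquiv.neg ℂ).measurableEmbedding
    (fun c => ENNReal.ofReal (∫ y, w y * (np c (p y - 2) * np (x + c) (q y - 2))).re)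
  rw [← e1]
  have h1 := step hR hw hp hq hp0 hq0 hpq hpr hqr hx (fun c => by
    have h2 := h0 (-c)
    simp only [np_neg] at h2
    rw [← sub_eq_add_neg] at h2
    exact h2)
  simp only [np_neg, ← sub_eq_add_neg]
  exact h1

theorem np_zero_int {w q : ℝ → ℂ} {z : ℝ → ℂ} {x : ℂ} (hx : x = 0) {q0 : ℝ} (hq0 : q0 ≠ 2)
    (hqr : ∀ y, (q y).re = q0) :
    (∫ y, w y * (z y * np x (q y - 2))).re = 0 := by
  have h1 : ∀ y, np x (q y - 2) = 0 := fun y => by
    rw [hx]
    refine np_zero fun h => ?_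
    have h2 := congrArg Complex.re h
    rw [Complex.sub_re, hqr, Complex.zero_re] at h2
    have h3 : (2 : ℂ).re = 2 := rfl
    rw [h3] at h2
    exact hq0 (by linarith)
  simp [h1]

namespace CM3

noncomputable def al (y : ℝ) : ℂ := 1 / 3 + Complex.I * y / 3

noncomputable def be (y : ℝ) : ℂ := 1 / 3 - Complex.I * y / 3

theorem al_re (y : ℝ) : (al y).re = 1 / 3 := by
  unfold al
  simp

theorem be_re (y : ℝ) : (be y).re = 1 / 3 := by
  unfold be
  simp

theorem al_meas : Measurable al := by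
  unfold al
  fun_prop

theorem be_meas : Measurable be := by
  unfold be
  fun_prop

theorem be_conj (y : ℝ) : (starRingEnd ℂ) (al y) = be y := by
  have h2 : (starRingEnd ℂ) 3 = 3 := map_ofNat _ 3
  unfold al be
  rw [map_add, map_div₀, map_div₀, map_mul, Complex.conj_I, Complex.conj_ofReal, map_one, h2]
  ring

/-- the first weight -/
noncomputable def w0 (ν : ℝ → ℝ) (a : ℂ) (y : ℝ) : ℂ :=
  (ν y : ℂ) * (1 - Complex.I * y) * np a (-(Complex.I * y / 3))

theorem w0_int {ν : ℝ → ℝ} (h : Nu ν) {a : ℂ} (ha : a ≠ 0) : Integrable (w0 ν a) := by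
  refine (nuw_int h).norm.mono' ?_ (Eventually.of_forall fun y => ?_)
  · refine (nuw_int h).aestronglyMeasurable.mul (Measurable.aestronglyMeasurable ?_)
    exact np_meas measurable_const (by fun_prop)
  · unfold w0
    rw [norm_mul, np_exp ha]
    have e1 : -(Complex.I * y / 3) * (Real.log ‖a‖ : ℂ) =
        ((-(y / 3 * Real.log ‖a‖) : ℝ) : ℂ) * Complex.I := by
      push_cast
      ring
    rw [e1, Complex.norm_exp_ofReal_mul_I, mul_one]

theorem al2 (y : ℝ) : (al y - 2).re = -(5 / 3) := by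
  rw [Complex.sub_re, al_re]
  norm_num

theorem be2 (y : ℝ) : (be y - 2).re = -(5 / 3) := by
  rw [Complex.sub_re, be_re]
  norm_num

theorem point {ν : ℝ → ℝ} (h : Nu ν) {a : ℂ} (ha : a ≠ 0) (b b' c c' : ℂ) :
    (‖b‖ * ‖b'‖ * (‖c‖ * ‖c'‖ * ‖a + b + b' - c - c'‖)) ^ (-(5 / 3) : ℝ) *
      Gh ν (Real.log (‖a‖ * ‖b‖ * ‖b'‖ / (‖c‖ * ‖c'‖ * ‖a + b + b' - c - c'‖)) / 3) =
    (∫ y, w0 ν a y * np b (be y - 2) * np b' (be y - 2) * np c (al y - 2) *
      (np c' (al y - 2) * np (a + b + b' - c - c') (al y - 2))).re := by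
  have hal : ∀ y, al y - 2 ≠ 0 := fun y h1 => by
    have h2 := congrArg Complex.re h1
    rw [al2] at h2
    norm_num at h2
  have hbe : ∀ y, be y - 2 ≠ 0 := fun y h1 => by
    have h2 := congrArg Complex.re h1
    rw [be2] at h2
    norm_num at h2
  rcases eq_or_ne b 0 with rfl | hb
  · simp [np_zero (hbe _)]
  rcases eq_or_ne b' 0 with rfl | hb'
  · simp [np_zero (hbe _)]
  rcases eq_or_ne c 0 with rfl | hc
  · simp [np_zero (hal _)]
  rcases eq_or_ne c' 0 with rfl | hc'
  · simp [np_zero (hal _)]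
  rcases eq_or_ne (a + b + b' - c - c') 0 with hd | hd
  · rw [hd]
    simp [np_zero (hal _)]
  set d := a + b + b' - c - c' with hdd
  have na := norm_pos_iff.2 ha
  have nb := norm_pos_iff.2 hb
  have nb' := norm_pos_iff.2 hb'
  have nc := norm_pos_iff.2 hc
  have nc' := norm_pos_iff.2 hc'
  have nd := norm_pos_iff.2 hd
  set k := Real.log (‖a‖ * ‖b‖ * ‖b'‖ / (‖c‖ * ‖c'‖ * ‖d‖)) / 3 with hk
  have hk2 : k = (Real.log ‖a‖ + Real.log ‖b‖ + Real.log ‖b'‖ - Real.log ‖c‖ - Real.log ‖c'‖ -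
      Real.log ‖d‖) / 3 := by
    rw [hk, Real.log_div (by positivity) (by positivity), Real.log_mul (by positivity) nb'.ne',
      Real.log_mul na.ne' nb.ne', Real.log_mul (by positivity) nd.ne', Real.log_mul nc.ne' nc'.ne']
    ring
  have hr : (‖b‖ * ‖b'‖ * (‖c‖ * ‖c'‖ * ‖d‖)) ^ (-(5 / 3) : ℝ) =
      Real.exp (-(5 / 3) * (Real.log ‖b‖ + Real.log ‖b'‖ + Real.log ‖c‖ + Real.log ‖c'‖ +
        Real.log ‖d‖)) := by
    rw [Real.rpow_def_of_pos (by positivity), Real.log_mul (by positivity) (by positivity),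
      Real.log_mul nb.ne' nb'.ne', Real.log_mul (by positivity) nd.ne', Real.log_mul nc.ne' nc'.ne']
    congr 1
    ring
  have hI : ∀ y : ℝ, w0 ν a y * np b (be y - 2) * np b' (be y - 2) * np c (al y - 2) *
      (np c' (al y - 2) * np d (al y - 2)) =
      (((‖b‖ * ‖b'‖ * (‖c‖ * ‖c'‖ * ‖d‖)) ^ (-(5 / 3) : ℝ) : ℝ) : ℂ) *
        ((ν y : ℂ) * (1 - Complex.I * y) * Complex.exp (-(Complex.I * y * k))) := by
    intro y
    unfold w0
    rw [hr, np_exp ha, np_exp hb, np_exp hb', np_exp hc, np_exp hc', np_exp hd, Complex.ofReal_exp]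
    have e1 : ∀ u v A B B' C D D' : ℂ, u * v * A * B * B' * C * (D * D') =
        u * v * (A * B * B' * C * D * D') := by
      intros
      ring
    rw [e1, ← Complex.exp_add, ← Complex.exp_add, ← Complex.exp_add, ← Complex.exp_add,
      ← Complex.exp_add]
    have e2 : ∀ u v A B : ℂ, A * (u * v * B) = u * v * (A * B) := by
      intros
      ring
    rw [e2, ← Complex.exp_add]
    congr 2
    unfold al be
    rw [hk2]
    push_cast
    ring
  simp only [hI]
  rw [integral_const_mul, Complex.re_ofReal_mul, ← (Gh_re h k).2]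

theorem mul_np_int {w : ℝ → ℂ} (hw : Integrable w) (c : ℂ) {p : ℝ → ℂ} (hp : Measurable p)
    {p0 : ℝ} (hp0 : p0 ≠ 2) (hpr : ∀ y, (p y).re = p0) :
    Integrable fun y => w y * np c (p y - 2) := by
  have e1 : ∀ y, (p y - 2).re = p0 - 2 := fun y => by
    rw [Complex.sub_re, hpr]
    rfl
  refine (hw.norm.mul_const (‖c‖ ^ (p0 - 2 : ℝ))).mono' ?_ (Eventually.of_forall fun y => ?_)
  · exact hw.aestronglyMeasurable.mul
      (np_meas measurable_const (hp.sub_const 2)).aestronglyMeasurable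
  · rw [norm_mul, np_norm _ _ (by rw [e1]; intro h; exact hp0 (by linarith)), e1]

theorem t (hR : R_RZC) : R_CM3 := by
  intro ν h a ha
  have hG := (PTW.t ν h).2.1
  have hw0 := w0_int h ha
  have h13 : (0 : ℝ) < 1 / 3 := by norm_num
  have h23 : (0 : ℝ) < 2 / 3 := by norm_num
  have m2 : Measurable fun y => al y + al y := al_meas.add al_meas
  have m3 : Measurable fun y => al y + (al y + al y) := al_meas.add m2
  have m4 : Measurable fun y => be y + (al y + (al y + al y)) := be_meas.add m3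
  have r2 : ∀ y, (al y + al y).re = 2 / 3 := fun y => by
    rw [Complex.add_re, al_re]
    norm_num
  have r3 : ∀ y, (al y + (al y + al y)).re = 1 := fun y => by
    rw [Complex.add_re, r2, al_re]
    norm_num
  have r4 : ∀ y, (be y + (al y + (al y + al y))).re = 4 / 3 := fun y => by
    rw [Complex.add_re, r3, be_re]
    norm_num
  -- weights
  set w1 : ℝ → ℂ := fun y => w0 ν a y * BB (al y) (al y) with hw1
  have i1 : Integrable w1 := int_BB hR hw0 al_meas al_meas h13 h13 (by norm_num) al_re al_re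
  set w2 : ℝ → ℂ := fun y => w1 y * BB (al y) (al y + al y) with hw2
  have i2 : Integrable w2 := int_BB hR i1 al_meas m2 h13 h23 (by norm_num) al_re r2
  set w3 : ℝ → ℂ := fun y => w2 y * BB (be y) (al y + (al y + al y)) with hw3
  have i3 : Integrable w3 := int_BB hR i2 be_meas m3 h13 one_pos (by norm_num) be_re r3
  have n2 : (1 / 3 : ℝ) ≠ 2 := by norm_num
  have n3 : (2 / 3 : ℝ) ≠ 2 := by norm_num
  have n4 : (1 : ℝ) ≠ 2 := by norm_num
  have n5 : (4 / 3 : ℝ) ≠ 2 := by norm_num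
  -- integration over `c'`
  have s4 : ∀ b b' c : ℂ, a + b + b' - c ≠ 0 →
      (∫⁻ c' : ℂ, ENNReal.ofReal ((‖b‖ * ‖b'‖ * (‖c‖ * ‖c'‖ * ‖a + b + b' - c - c'‖)) ^
        (-(5 / 3) : ℝ) *
        Gh ν (Real.log (‖a‖ * ‖b‖ * ‖b'‖ / (‖c‖ * ‖c'‖ * ‖a + b + b' - c - c'‖)) / 3)) =
      ENNReal.ofReal (∫ y, w1 y * np b (be y - 2) * np b' (be y - 2) *
        (np c (al y - 2) * np (a + b + b' - c) (al y + al y - 2))).re) ∧
      0 ≤ (∫ y, w1 y * np b (be y - 2) * np b' (be y - 2) *
        (np c (al y - 2) * np (a + b + b' - c) (al y + al y - 2))).re := by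
    intro b b' c hx
    have hwi := mul_np_int (mul_np_int (mul_np_int hw0 b be_meas n2 be_re) b' be_meas n2 be_re) c
      al_meas n2 al_re
    have h1 := step hR hwi al_meas al_meas h13 h13 (by norm_num) al_re al_re hx (fun c' => by
      have h2 := point h ha b b' c c'
      rw [← h2]
      exact mul_nonneg (Real.rpow_nonneg (by positivity) _) (hG _))
    have e1 : ∀ y, w0 ν a y * np b (be y - 2) * np b' (be y - 2) * np c (al y - 2) *
        BB (al y) (al y) * np (a + b + b' - c) (al y + al y - 2) =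
        w1 y * np b (be y - 2) * np b' (be y - 2) *
        (np c (al y - 2) * np (a + b + b' - c) (al y + al y - 2)) := by
      intro y
      rw [hw1]
      simp only
      ring
    simp only [e1] at h1
    refine ⟨?_, h1.2⟩
    rw [← h1.1]
    refine lintegral_congr fun c' => ?_
    rw [point h ha b b' c c']
  have p3 : ∀ b b' c : ℂ, 0 ≤ (∫ y, w1 y * np b (be y - 2) * np b' (be y - 2) *
        (np c (al y - 2) * np (a + b + b' - c) (al y + al y - 2))).re := by
    intro b b' c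
    rcases eq_or_ne (a + b + b' - c) 0 with hx | hx
    · rw [np_zero_int hx n3 r2]
    · exact (s4 b b' c hx).2
  -- integration over `c`
  have s3 : ∀ b b' : ℂ, a + b + b' ≠ 0 →
      (∫⁻ c : ℂ, ENNReal.ofReal (∫ y, w1 y * np b (be y - 2) * np b' (be y - 2) *
        (np c (al y - 2) * np (a + b + b' - c) (al y + al y - 2))).re =
      ENNReal.ofReal (∫ y, w2 y * np b (be y - 2) *
        (np b' (be y - 2) * np (a + b + b') (al y + (al y + al y) - 2))).re) ∧
      0 ≤ (∫ y, w2 y * np b (be y - 2) *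
        (np b' (be y - 2) * np (a + b + b') (al y + (al y + al y) - 2))).re := by
    intro b b' hx
    have hwi := mul_np_int (mul_np_int i1 b be_meas n2 be_re) b' be_meas n2 be_re
    have h1 := step hR hwi al_meas m2 h13 h23 (by norm_num) al_re r2 hx (p3 b b')
    have e1 : ∀ y, w1 y * np b (be y - 2) * np b' (be y - 2) *
        BB (al y) (al y + al y) * np (a + b + b') (al y + (al y + al y) - 2) =
        w2 y * np b (be y - 2) *
        (np b' (be y - 2) * np (a + b + b') (al y + (al y + al y) - 2)) := by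
      intro y
      rw [hw2]
      simp only
      ring
    simp only [e1] at h1
    exact h1
  have p2 : ∀ b b' : ℂ, 0 ≤ (∫ y, w2 y * np b (be y - 2) *
        (np b' (be y - 2) * np (a + b + b') (al y + (al y + al y) - 2))).re := by
    intro b b'
    rcases eq_or_ne (a + b + b') 0 with hx | hx
    · rw [np_zero_int hx n4 r3]
    · exact (s3 b b' hx).2
  -- integration over `b'`
  have s2 : ∀ b : ℂ, a + b ≠ 0 →
      (∫⁻ b' : ℂ, ENNReal.ofReal (∫ y, w2 y * np b (be y - 2) *
        (np b' (be y - 2) * np (a + b + b') (al y + (al y + al y) - 2))).re =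
      ENNReal.ofReal (∫ y, w3 y *
        (np b (be y - 2) * np (a + b) (be y + (al y + (al y + al y)) - 2))).re) ∧
      0 ≤ (∫ y, w3 y *
        (np b (be y - 2) * np (a + b) (be y + (al y + (al y + al y)) - 2))).re := by
    intro b hx
    have hwi := mul_np_int i2 b be_meas n2 be_re
    have h1 := step' hR hwi be_meas m3 h13 one_pos (by norm_num) be_re r3 hx (p2 b)
    have e1 : ∀ y, w2 y * np b (be y - 2) *
        BB (be y) (al y + (al y + al y)) * np (a + b) (be y + (al y + (al y + al y)) - 2) =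
        w3 y * (np b (be y - 2) * np (a + b) (be y + (al y + (al y + al y)) - 2)) := by
      intro y
      rw [hw3]
      simp only
      ring
    simp only [e1] at h1
    exact h1
  have p1 : ∀ b : ℂ, 0 ≤ (∫ y, w3 y *
        (np b (be y - 2) * np (a + b) (be y + (al y + (al y + al y)) - 2))).re := by
    intro b
    rcases eq_or_ne (a + b) 0 with hx | hx
    · rw [np_zero_int hx n5 r4]
    · exact (s2 b hx).2
  -- integration over `b`
  have s1 := step' hR i3 be_meas m4 h13 (by norm_num : (0 : ℝ) < 4 / 3) (by norm_num) be_re r4 ha p1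
  have hae : ∀ x : ℂ, ∀ᵐ c : ℂ, c ≠ x := fun x => by
    rw [ae_iff]
    simp
  have hL : ∫⁻ b : ℂ, ∫⁻ b' : ℂ, ∫⁻ c : ℂ, ∫⁻ c' : ℂ,
      ENNReal.ofReal ((‖b‖ * ‖b'‖ * (‖c‖ * ‖c'‖ * ‖a + b + b' - c - c'‖)) ^ (-(5 / 3) : ℝ) *
      Gh ν (Real.log (‖a‖ * ‖b‖ * ‖b'‖ / (‖c‖ * ‖c'‖ * ‖a + b + b' - c - c'‖)) / 3)) =
      ENNReal.ofReal (∫ y, w3 y * BB (be y) (be y + (al y + (al y + al y))) *
        np a (be y + (be y + (al y + (al y + al y))) - 2)).re := by
    rw [← s1.1]
    refine lintegral_congr_ae ?_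
    filter_upwards [hae (-a)] with b hb
    have hb' : a + b ≠ 0 := fun h1 => hb (by linear_combination h1)
    rw [← (s2 b hb').1]
    refine lintegral_congr_ae ?_
    filter_upwards [hae (-(a + b))] with b' hb2
    have hb2' : a + b + b' ≠ 0 := fun h1 => hb2 (by linear_combination h1)
    rw [← (s3 b b' hb2').1]
    refine lintegral_congr_ae ?_
    filter_upwards [hae (a + b + b')] with c hc
    have hc' : a + b + b' - c ≠ 0 := fun h1 => hc (by linear_combination -h1)
    exact (s4 b b' c hc').1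
  rw [hL]
  have hI := step_int hR i3 be_meas m4 h13 (by norm_num : (0 : ℝ) < 4 / 3) (by norm_num) be_re r4 ha
  have hfin : ∀ y, w3 y * BB (be y) (be y + (al y + (al y + al y))) *
        np a (be y + (be y + (al y + (al y + al y))) - 2) =
      ((Real.pi ^ 4 * ‖a‖ ^ (-(1 / 3) : ℝ) * ‖gm (1 / 3 + Complex.I * y / 3)‖ ^ 6 : ℝ) : ℂ) *
        ((ν y : ℂ) * (1 - Complex.I * y)) := by
    intro y
    have g1 : gm (al y + al y) ≠ 0 := gm_ne (by rw [r2]; norm_num) (by rw [r2]; norm_num)
    have g1' : gm (al y + (al y + al y)) ≠ 0 := gm_ne (by rw [r3]; norm_num) (by rw [r3]; norm_num)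
    have g1'' : gm (be y + (al y + (al y + al y))) ≠ 0 :=
      gm_ne (by rw [r4]; norm_num) (by rw [r4]; norm_num)
    have g2 : be y + (be y + (al y + (al y + al y))) = 2 - be y := by
      unfold al be
      ring
    have g3 : gm (2 - be y) * gm (be y) = 1 :=
      gm_refl (by rw [be_re]; norm_num) (by rw [be_re]; norm_num)
    have g5 : gm (2 - be y) ≠ 0 := left_ne_zero_of_mul (by rw [g3]; exact one_ne_zero)
    have g6 : gm (al y) * gm (be y) = ((‖gm (al y)‖ ^ 2 : ℝ) : ℂ) := by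
      rw [← be_conj, gm_conj, Complex.mul_conj, Complex.normSq_eq_norm_sq]
    have g7 : np a (-(Complex.I * y / 3)) * np a (be y + (be y + (al y + (al y + al y))) - 2) =
        ((‖a‖ ^ (-(1 / 3) : ℝ) : ℝ) : ℂ) := by
      rw [np_add ha, np_exp ha, Real.rpow_def_of_pos (norm_pos_iff.2 ha), Complex.ofReal_exp]
      congr 1
      unfold al be
      push_cast
      ring
    have g8 : BB (al y) (al y) * BB (al y) (al y + al y) * BB (be y) (al y + (al y + al y)) *
        BB (be y) (be y + (al y + (al y + al y))) =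
        ((Real.pi ^ 4 * ‖gm (al y)‖ ^ 6 : ℝ) : ℂ) := by
      unfold BB
      rw [g2]
      have e0 : ∀ A B G H J K : ℂ, G ≠ 0 → H ≠ 0 → J ≠ 0 → (Real.pi : ℂ) * (A * A / G) *
          ((Real.pi : ℂ) * (A * G / H)) * ((Real.pi : ℂ) * (B * H / J)) *
          ((Real.pi : ℂ) * (B * J / K)) = (Real.pi : ℂ) ^ 4 * (A * A * A * B * B) / K := by
        intro A B G H J K hG hH hJ
        field_simp
      have e1 := e0 (gm (al y)) (gm (be y)) (gm (al y + al y)) (gm (al y + (al y + al y)))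
        (gm (be y + (al y + (al y + al y)))) (gm (2 - be y)) g1 g1' g1''
      rw [e1, div_eq_iff g5]
      push_cast
      have e2 : ((‖gm (al y)‖ : ℂ)) ^ 6 = (gm (al y) * gm (be y)) ^ 3 := by
        rw [g6]
        push_cast
        ring
      rw [e2]
      linear_combination (-(Real.pi : ℂ) ^ 4 *
        (gm (al y) * gm (al y) * gm (al y) * gm (be y) * gm (be y))) * g3
    have g9 : w3 y * BB (be y) (be y + (al y + (al y + al y))) *
        np a (be y + (be y + (al y + (al y + al y))) - 2) =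
        (BB (al y) (al y) * BB (al y) (al y + al y) * BB (be y) (al y + (al y + al y)) *
        BB (be y) (be y + (al y + (al y + al y)))) *
        (np a (-(Complex.I * y / 3)) * np a (be y + (be y + (al y + (al y + al y))) - 2)) *
        ((ν y : ℂ) * (1 - Complex.I * y)) := by
      rw [hw3, hw2, hw1]
      simp only
      unfold w0
      ring
    rw [g9, g8, g7]
    unfold al
    push_cast
    ring
  simp only [hfin] at hI ⊢
  have h4 : (∫ y : ℝ, ((Real.pi ^ 4 * ‖a‖ ^ (-(1 / 3) : ℝ) *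
      ‖gm (1 / 3 + Complex.I * y / 3)‖ ^ 6 : ℝ) : ℂ) * ((ν y : ℂ) * (1 - Complex.I * y))).re =
      ∫ y : ℝ, (((Real.pi ^ 4 * ‖a‖ ^ (-(1 / 3) : ℝ) *
      ‖gm (1 / 3 + Complex.I * y / 3)‖ ^ 6 : ℝ) : ℂ) * ((ν y : ℂ) * (1 - Complex.I * y))).re :=
    (integral_re hI).symm
  rw [h4]
  congr 1
  have h5 : ∀ y : ℝ, (((Real.pi ^ 4 * ‖a‖ ^ (-(1 / 3) : ℝ) *
      ‖gm (1 / 3 + Complex.I * y / 3)‖ ^ 6 : ℝ) : ℂ) * ((ν y : ℂ) * (1 - Complex.I * y))).re =
      (Real.pi ^ 4 * ‖a‖ ^ (-(1 / 3) : ℝ)) * (ν y * ‖gm (1 / 3 + Complex.I * y / 3)‖ ^ 6) := by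
    intro y
    rw [Complex.re_ofReal_mul, Complex.re_ofReal_mul]
    simp
    ring
  simp only [h5]
  rw [integral_const_mul]
  ring

end CM3

end Pool.Agent.H87.RP
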