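import Mathlib
import Pool.Agent.H87.RP.Step

/-!
Project RP, part CM2: the kernel integral for the exponent 4.
-/

set_option autoImplicit false

open MeasureTheory ENNReal Filter Topology
open scoped ContDiff

namespace Pool.Agent.H87.RP.CM2

open Pool.Agent.H10.RP

noncomputable def al (y : ℝ) : ℂ := 1 / 2 + Complex.I * y / 2

noncomputable def be (y : ℝ) : ℂ := 1 / 2 - Complex.I * y / 2

theorem al_re (y : ℝ) : (al y).re = 1 / 2 := by
  unfold al
  simp

theorem be_re (y : ℝ) : (be y).re = 1 / 2 := by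
  unfold be
  simp

theorem al_meas : Measurable al := by
  unfold al
  fun_prop

theorem be_meas : Measurable be := by
  unfold be
  fun_prop

theorem be_conj (y : ℝ) : (starRingEnd ℂ) (al y) = be y := by
  have h2 : (starRingEnd ℂ) 2 = 2 := map_ofNat _ 2
  unfold al be
  rw [map_add, map_div₀, map_div₀, map_mul, Complex.conj_I, Complex.conj_ofReal, map_one, h2]
  ring

/-- the first weight -/
noncomputable def w0 (ν : ℝ → ℝ) (a : ℂ) (y : ℝ) : ℂ :=
  (ν y : ℂ) * (1 - Complex.I * y) * np a (-(Complex.I * y / 2))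

theorem w0_int {ν : ℝ → ℝ} (h : Nu ν) {a : ℂ} (ha : a ≠ 0) : Integrable (w0 ν a) := by
  refine (nuw_int h).norm.mono' ?_ (Eventually.of_forall fun y => ?_)
  · refine (nuw_int h).aestronglyMeasurable.mul (Measurable.aestronglyMeasurable ?_)
    exact np_meas measurable_const (by fun_prop)
  · unfold w0
    rw [norm_mul, np_exp ha]
    have e1 : -(Complex.I * y / 2) * (Real.log ‖a‖ : ℂ) =
        ((-(y / 2 * Real.log ‖a‖) : ℝ) : ℂ) * Complex.I := by
      push_cast
      ring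
    rw [e1, Complex.norm_exp_ofReal_mul_I, mul_one]

theorem point {ν : ℝ → ℝ} (h : Nu ν) {a : ℂ} (ha : a ≠ 0) (b c : ℂ) :
    (‖b‖ * ‖c‖ * ‖a + b - c‖) ^ (-(3 / 2) : ℝ) *
      Gh ν (Real.log (‖a‖ * ‖b‖ / (‖c‖ * ‖a + b - c‖)) / 2) =
    (∫ y, w0 ν a y * np b (be y - 2) * (np c (al y - 2) * np (a + b - c) (al y - 2))).re := by
  have hal : ∀ y, al y - 2 ≠ 0 := fun y h1 => by
    have h2 := congrArg Complex.re h1
    rw [Complex.sub_re, al_re] at h2
    norm_num at h2
  have hbe : ∀ y, be y - 2 ≠ 0 := fun y h1 => by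
    have h2 := congrArg Complex.re h1
    rw [Complex.sub_re, be_re] at h2
    norm_num at h2
  rcases eq_or_ne b 0 with rfl | hb
  · simp [np_zero (hbe _)]
  rcases eq_or_ne c 0 with rfl | hc
  · simp [np_zero (hal _)]
  rcases eq_or_ne (a + b - c) 0 with hd | hd
  · rw [hd]
    simp [np_zero (hal _)]
  set d := a + b - c with hdd
  have ha' := norm_pos_iff.2 ha
  have hb' := norm_pos_iff.2 hb
  have hc' := norm_pos_iff.2 hc
  have hd' := norm_pos_iff.2 hd
  set k := Real.log (‖a‖ * ‖b‖ / (‖c‖ * ‖d‖)) / 2 with hk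
  have hk2 : k = (Real.log ‖a‖ + Real.log ‖b‖ - Real.log ‖c‖ - Real.log ‖d‖) / 2 := by
    rw [hk, Real.log_div (by positivity) (by positivity), Real.log_mul ha'.ne' hb'.ne',
      Real.log_mul hc'.ne' hd'.ne']
    ring
  have hr : (‖b‖ * ‖c‖ * ‖d‖) ^ (-(3 / 2) : ℝ) =
      Real.exp (-(3 / 2) * (Real.log ‖b‖ + Real.log ‖c‖ + Real.log ‖d‖)) := by
    rw [Real.rpow_def_of_pos (by positivity), Real.log_mul (by positivity) hd'.ne',
      Real.log_mul hb'.ne' hc'.ne', mul_comm]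
  have hI : ∀ y : ℝ, w0 ν a y * np b (be y - 2) * (np c (al y - 2) * np d (al y - 2)) =
      (((‖b‖ * ‖c‖ * ‖d‖) ^ (-(3 / 2) : ℝ) : ℝ) : ℂ) *
        ((ν y : ℂ) * (1 - Complex.I * y) * Complex.exp (-(Complex.I * y * k))) := by
    intro y
    unfold w0
    rw [hr, np_exp ha, np_exp hb, np_exp hc, np_exp hd, Complex.ofReal_exp]
    have e1 : ∀ u v A B C D : ℂ, u * v * A * B * (C * D) = u * v * (A * B * C * D) := by
      intros
      ring
    rw [e1, ← Complex.exp_add, ← Complex.exp_add, ← Complex.exp_add]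
    have e2 : ∀ u v A B : ℂ, A * (u * v * B) = u * v * (A * B) := by
      intros
      ring
    rw [e2, ← Complex.exp_add]
    congr 2
    unfold al be
    rw [hk2]
    push_cast
    ring
  simp only [hI]
  rw [integral_const_mul, Complex.re_ofReal_mul, ← (Gh_re h k).2]

theorem t (hR : R_RZC) : R_CM2 := by
  intro ν h a ha
  have hG := (PTW.t ν h).2.1
  have hw0 := w0_int h ha
  -- first integration
  set w1 : ℂ → ℝ → ℂ := fun b y => w0 ν a y * np b (be y - 2) with hw1
  have hbe2 : ∀ y, (be y - 2).re = -(3 / 2) := fun y => by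
    rw [Complex.sub_re, be_re]
    norm_num
  have hw1i : ∀ b, Integrable (w1 b) := by
    intro b
    refine (hw0.norm.mul_const (‖b‖ ^ (-(3 / 2) : ℝ))).mono' ?_ (Eventually.of_forall fun y => ?_)
    · exact hw0.aestronglyMeasurable.mul
        (np_meas measurable_const (be_meas.sub_const 2)).aestronglyMeasurable
    · rw [hw1]
      simp only
      rw [norm_mul, np_norm _ _ (by rw [hbe2]; norm_num), hbe2]
  have hnn : ∀ b c, 0 ≤ (∫ y, w1 b y * (np c (al y - 2) * np (a + b - c) (al y - 2))).re := by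
    intro b c
    have h1 := point h ha b c
    rw [hw1]
    simp only
    rw [← h1]
    exact mul_nonneg (Real.rpow_nonneg (by positivity) _) (hG _)
  set w2 : ℝ → ℂ := fun y => w0 ν a y * BB (al y) (al y) with hw2
  have hw2i : Integrable w2 := int_BB hR hw0 al_meas al_meas (by norm_num : (0 : ℝ) < 1 / 2)
    (by norm_num : (0 : ℝ) < 1 / 2) (by norm_num) al_re al_re
  have hre : ∀ b : ℂ, ∀ y, w1 b y * BB (al y) (al y) * np (a + b) (al y + al y - 2) =
      w2 y * (np b (be y - 2) * np (a + b) (al y + al y - 2)) := by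
    intro b y
    rw [hw1, hw2]
    simp only
    ring
  have hS1 : ∀ b : ℂ, a + b ≠ 0 →
      (∫⁻ c : ℂ, ENNReal.ofReal ((‖b‖ * ‖c‖ * ‖a + b - c‖) ^ (-(3 / 2) : ℝ) *
        Gh ν (Real.log (‖a‖ * ‖b‖ / (‖c‖ * ‖a + b - c‖)) / 2)) =
      ENNReal.ofReal (∫ y, w2 y * (np b (be y - 2) * np (a + b) (al y + al y - 2))).re) ∧
      0 ≤ (∫ y, w2 y * (np b (be y - 2) * np (a + b) (al y + al y - 2))).re := by
    intro b hb
    have h1 := step hR (hw1i b) al_meas al_meas (by norm_num : (0 : ℝ) < 1 / 2)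
      (by norm_num : (0 : ℝ) < 1 / 2) (by norm_num) al_re al_re hb (hnn b)
    simp only [hre] at h1
    refine ⟨?_, h1.2⟩
    rw [← h1.1]
    refine lintegral_congr fun c => ?_
    rw [point h ha b c]
  have hga : ∀ y, (al y + al y).re = 1 := fun y => by
    rw [Complex.add_re, al_re]
    norm_num
  have hz : ∀ y, np (0 : ℂ) (al y + al y - 2) = 0 := fun y => np_zero fun h1 => by
    have h2 := congrArg Complex.re h1
    rw [Complex.sub_re, hga] at h2
    norm_num at h2
  have hae : ∀ᵐ b : ℂ, a + -b ≠ 0 := by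
    have h1 : ∀ᵐ b : ℂ, b ≠ a := by
      rw [ae_iff]
      simp
    filter_upwards [h1] with b hb h2
    apply hb
    linear_combination -h2
  have hL : ∫⁻ b : ℂ, ∫⁻ c : ℂ, ENNReal.ofReal ((‖b‖ * ‖c‖ * ‖a + b - c‖) ^ (-(3 / 2) : ℝ) *
        Gh ν (Real.log (‖a‖ * ‖b‖ / (‖c‖ * ‖a + b - c‖)) / 2)) =
      ∫⁻ b : ℂ, ENNReal.ofReal
        (∫ y, w2 y * (np b (be y - 2) * np (a - b) (al y + al y - 2))).re := by
    have e1 := (Measure.measurePreserving_neg (volume : Measure ℂ)).lintegral_comp_emb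
      (MeasurableEquiv.neg ℂ).measurableEmbedding
      (fun b => ∫⁻ c : ℂ, ENNReal.ofReal ((‖b‖ * ‖c‖ * ‖a + b - c‖) ^ (-(3 / 2) : ℝ) *
        Gh ν (Real.log (‖a‖ * ‖b‖ / (‖c‖ * ‖a + b - c‖)) / 2)))
    rw [← e1]
    refine lintegral_congr_ae ?_
    filter_upwards [hae] with b hb
    rw [(hS1 (-b) hb).1]
    simp only [np_neg]
    rw [sub_eq_add_neg]
  rw [hL]
  have hgm : Measurable fun y => al y + al y := al_meas.add al_meas
  have h2 := step hR hw2i be_meas hgm (by norm_num : (0 : ℝ) < 1 / 2)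
    (by norm_num : (0 : ℝ) < 1) (by norm_num) be_re hga ha (fun b => by
      rcases eq_or_ne (a + -b) 0 with hb | hb
      · have hb' : a - b = 0 := by rw [sub_eq_add_neg, hb]
        simp [hb', hz]
      · have h3 := (hS1 (-b) hb).2
        simp only [np_neg] at h3
        rw [← sub_eq_add_neg] at h3
        exact h3)
  rw [h2.1]
  have h3 := step_int hR hw2i be_meas hgm (by norm_num : (0 : ℝ) < 1 / 2)
    (by norm_num : (0 : ℝ) < 1) (by norm_num) be_re hga ha
  have hfin : ∀ y, w2 y * BB (be y) (al y + al y) * np a (be y + (al y + al y) - 2) =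
      ((Real.pi ^ 2 * ‖a‖ ^ (-(1 / 2) : ℝ) * ‖gm (1 / 2 + Complex.I * y / 2)‖ ^ 4 : ℝ) : ℂ) *
        ((ν y : ℂ) * (1 - Complex.I * y)) := by
    intro y
    have g1 : gm (al y + al y) ≠ 0 := gm_ne (by rw [hga]; norm_num) (by rw [hga]; norm_num)
    have g2 : be y + (al y + al y) = 2 - be y := by
      unfold al be
      ring
    have g3 : gm (2 - be y) * gm (be y) = 1 :=
      gm_refl (by rw [be_re]; norm_num) (by rw [be_re]; norm_num)
    have g4 : gm (be y) ≠ 0 := gm_ne (by rw [be_re]; norm_num) (by rw [be_re]; norm_num)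
    have g5 : gm (2 - be y) ≠ 0 := left_ne_zero_of_mul (by rw [g3]; exact one_ne_zero)
    have g6 : gm (al y) * gm (be y) = ((‖gm (al y)‖ ^ 2 : ℝ) : ℂ) := by
      rw [← be_conj, gm_conj, Complex.mul_conj, Complex.normSq_eq_norm_sq]
    have g7 : np a (-(Complex.I * y / 2)) * np a (be y + (al y + al y) - 2) =
        ((‖a‖ ^ (-(1 / 2) : ℝ) : ℝ) : ℂ) := by
      rw [np_add ha, np_exp ha, Real.rpow_def_of_pos (norm_pos_iff.2 ha), Complex.ofReal_exp]
      congr 1
      unfold al be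
      push_cast
      ring
    have g8 : BB (al y) (al y) * BB (be y) (al y + al y) =
        ((Real.pi ^ 2 * ‖gm (al y)‖ ^ 4 : ℝ) : ℂ) := by
      unfold BB
      rw [g2]
      have e0 : ∀ A B G H : ℂ, G ≠ 0 → (Real.pi : ℂ) * (A * A / G) *
          ((Real.pi : ℂ) * (B * G / H)) = (Real.pi : ℂ) ^ 2 * (A * A * B) / H := by
        intro A B G H hG
        field_simp
      have e1 := e0 (gm (al y)) (gm (be y)) (gm (al y + al y)) (gm (2 - be y)) g1
      rw [e1, div_eq_iff g5]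
      push_cast
      have e2 : ((‖gm (al y)‖ : ℂ)) ^ 4 = (gm (al y) * gm (be y)) ^ 2 := by
        rw [g6]
        push_cast
        ring
      rw [e2]
      linear_combination (-(Real.pi : ℂ) ^ 2 * (gm (al y) * gm (al y) * gm (be y))) * g3
    have g9 : w2 y * BB (be y) (al y + al y) * np a (be y + (al y + al y) - 2) =
        (BB (al y) (al y) * BB (be y) (al y + al y)) *
        (np a (-(Complex.I * y / 2)) * np a (be y + (al y + al y) - 2)) *
        ((ν y : ℂ) * (1 - Complex.I * y)) := by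
      rw [hw2]
      simp only
      unfold w0
      ring
    rw [g9, g8, g7]
    unfold al
    push_cast
    ring
  simp only [hfin] at h3 ⊢
  have h4 : (∫ y : ℝ, ((Real.pi ^ 2 * ‖a‖ ^ (-(1 / 2) : ℝ) *
      ‖gm (1 / 2 + Complex.I * y / 2)‖ ^ 4 : ℝ) : ℂ) * ((ν y : ℂ) * (1 - Complex.I * y))).re =
      ∫ y : ℝ, (((Real.pi ^ 2 * ‖a‖ ^ (-(1 / 2) : ℝ) *
      ‖gm (1 / 2 + Complex.I * y / 2)‖ ^ 4 : ℝ) : ℂ) * ((ν y : ℂ) * (1 - Complex.I * y))).re :=
    (integral_re h3).symm
  rw [h4]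
  congr 1
  have h5 : ∀ y : ℝ, (((Real.pi ^ 2 * ‖a‖ ^ (-(1 / 2) : ℝ) *
      ‖gm (1 / 2 + Complex.I * y / 2)‖ ^ 4 : ℝ) : ℂ) * ((ν y : ℂ) * (1 - Complex.I * y))).re =
      (Real.pi ^ 2 * ‖a‖ ^ (-(1 / 2) : ℝ)) * (ν y * ‖gm (1 / 2 + Complex.I * y / 2)‖ ^ 4) := by
    intro y
    rw [Complex.re_ofReal_mul, Complex.re_ofReal_mul]
    simp
    ring
  simp only [h5]
  rw [integral_const_mul]
  ring

end Pool.Agent.H87.RP.CM2
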