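import Mathlib
import Pool.Agent.H87.RP.Step

/-!
Project RP: the average over `y` of the square of an oscillating integral (for GN2 and GN3).
-/

set_option autoImplicit false

open MeasureTheory ENNReal Filter Topology

namespace Pool.Agent.H87.RP

open Pool.Agent.H10.RP

theorem exp_neg_form (y k : ℝ) : -(Complex.I * y * k) = ((-(k * y) : ℝ) : ℂ) * Complex.I := by
  push_cast
  ring

theorem norm_exp_form (y k : ℝ) : ‖Complex.exp (-(Complex.I * y * k))‖ = 1 := by
  rw [exp_neg_form, Complex.norm_exp_ofReal_mul_I]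

theorem nu_int0 {ν : ℝ → ℝ} (h : Nu ν) : Integrable ν := by
  have h1 := PTW.int_cos h 0
  simpa using h1

/-- the transform of `ν` -/
theorem Fh_exp {ν : ℝ → ℝ} (h : Nu ν) (k : ℝ) :
    ∫ y : ℝ, (ν y : ℂ) * Complex.exp (-(Complex.I * y * k)) = (Fh ν k : ℂ) := by
  have hi : Integrable fun y : ℝ => (ν y : ℂ) * Complex.exp (-(Complex.I * y * k)) := by
    have hm : Continuous fun y : ℝ => (ν y : ℂ) * Complex.exp (-(Complex.I * y * k)) := by
      have := h.1
      fun_prop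
    refine (nu_int0 h).norm.mono' hm.aestronglyMeasurable (Eventually.of_forall fun y => ?_)
    rw [norm_mul, norm_exp_form, mul_one, Complex.norm_real]
  have e1 : ∀ y : ℝ, ((ν y : ℂ) * Complex.exp (-(Complex.I * y * k))).re =
      ν y * Real.cos (k * y) := by
    intro y
    rw [exp_neg_form, Complex.exp_mul_I, ← Complex.ofReal_cos, ← Complex.ofReal_sin, Real.cos_neg,
      Real.sin_neg]
    generalize Real.cos (k * y) = c
    generalize Real.sin (k * y) = s
    simp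
  have e2 : ∀ y : ℝ, ((ν y : ℂ) * Complex.exp (-(Complex.I * y * k))).im =
      -(ν y * Real.sin (k * y)) := by
    intro y
    rw [exp_neg_form, Complex.exp_mul_I, ← Complex.ofReal_cos, ← Complex.ofReal_sin, Real.cos_neg,
      Real.sin_neg]
    generalize Real.cos (k * y) = c
    generalize Real.sin (k * y) = s
    simp
  have e3 : ∫ y : ℝ, ν y * Real.sin (k * y) = 0 := by
    have h1 : ∫ y : ℝ, ν (-y) * Real.sin (k * (-y)) = ∫ y : ℝ, ν y * Real.sin (k * y) :=
      integral_neg_eq_self (fun y : ℝ => ν y * Real.sin (k * y)) volume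
    have h2 : ∫ y : ℝ, ν (-y) * Real.sin (k * (-y)) = -∫ y : ℝ, ν y * Real.sin (k * y) := by
      rw [← integral_neg]
      congr 1
      funext y
      rw [h.2.2.1 y, mul_neg, Real.sin_neg, mul_neg]
    linarith
  apply Complex.ext
  · have h1 : (∫ y : ℝ, (ν y : ℂ) * Complex.exp (-(Complex.I * y * k))).re =
        ∫ y : ℝ, ((ν y : ℂ) * Complex.exp (-(Complex.I * y * k))).re := (integral_re hi).symm
    rw [h1, Complex.ofReal_re]
    simp only [e1]
    rfl
  · have h1 : (∫ y : ℝ, (ν y : ℂ) * Complex.exp (-(Complex.I * y * k))).im =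
        ∫ y : ℝ, ((ν y : ℂ) * Complex.exp (-(Complex.I * y * k))).im := (integral_im hi).symm
    rw [h1, Complex.ofReal_im]
    simp only [e2]
    rw [integral_neg, e3, neg_zero]

theorem Gh_cont {ν : ℝ → ℝ} (h : Nu ν) : Continuous (Gh ν) :=
  continuous_iff_continuousAt.2 fun k => (PTW.Gh_deriv h k).continuousAt

theorem Fh_cont {ν : ℝ → ℝ} (h : Nu ν) : Continuous (Fh ν) := by
  have h1 : Fh ν = fun k => (Gh ν k + Gh ν (-k)) / 2 := by
    funext k
    rw [PTW.Gh_add h k]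
    ring
  rw [h1]
  have h2 := Gh_cont h
  fun_prop

theorem ofReal_int_le {Ω : Type*} [MeasurableSpace Ω] {μ : Measure Ω} {g : Ω → ℝ}
    (hg : ∀ z, 0 ≤ g z) : ENNReal.ofReal (∫ z, g z ∂μ) ≤ ∫⁻ z, ENNReal.ofReal (g z) ∂μ := by
  by_cases hi : Integrable g μ
  · exact (ofReal_integral_eq_lintegral_ofReal hi (Eventually.of_forall hg)).le
  · rw [integral_undef hi, ENNReal.ofReal_zero]
    exact zero_le

/-- the average of the square of an oscillating integral -/
theorem key {Ω : Type*} [MeasurableSpace Ω] {μ : Measure Ω} [SFinite μ] {ν : ℝ → ℝ} (h : Nu ν)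
    {B : Ω → ℂ} (hB : Integrable B μ) {Λ : Ω → ℝ} (hΛ : Measurable Λ) :
    ∫⁻ y : ℝ, ENNReal.ofReal (ν y) *
      ‖∫ ω, B ω * Complex.exp (-(Complex.I * y * Λ ω)) ∂μ‖ₑ ^ 2 ≤
    ∫⁻ z, ENNReal.ofReal (‖B z.1‖ * ‖B z.2‖ * Fh ν (Λ z.1 - Λ z.2)) ∂(μ.prod μ) := by
  set S : ℝ → ℂ := fun y => ∫ ω, B ω * Complex.exp (-(Complex.I * y * Λ ω)) ∂μ with hS
  set f : ℝ → Ω × Ω → ℂ := fun y z => (ν y : ℂ) * (B z.1 * Complex.exp (-(Complex.I * y * Λ z.1)) *
    (starRingEnd ℂ) (B z.2 * Complex.exp (-(Complex.I * y * Λ z.2)))) with hf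
  have hfe : ∀ y z, f y z = (B z.1 * (starRingEnd ℂ) (B z.2)) *
      ((ν y : ℂ) * Complex.exp (-(Complex.I * y * ((Λ z.1 - Λ z.2 : ℝ) : ℂ)))) := by
    intro y z
    have e1 : (starRingEnd ℂ) (Complex.exp (-(Complex.I * y * Λ z.2))) =
        Complex.exp (Complex.I * y * Λ z.2) := by
      rw [← Complex.exp_conj, map_neg, map_mul, map_mul, Complex.conj_I, Complex.conj_ofReal,
        Complex.conj_ofReal]
      congr 1
      ring
    have e2 : Complex.exp (-(Complex.I * y * ((Λ z.1 - Λ z.2 : ℝ) : ℂ))) =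
        Complex.exp (-(Complex.I * y * Λ z.1)) * Complex.exp (Complex.I * y * Λ z.2) := by
      rw [← Complex.exp_add]
      congr 1
      push_cast
      ring
    simp only [hf]
    rw [map_mul, e1, e2]
    ring
  have hBB : Integrable (fun z : Ω × Ω => B z.1 * (starRingEnd ℂ) (B z.2)) (μ.prod μ) := by
    have hB' : Integrable (fun ω => (starRingEnd ℂ) (B ω)) μ :=
      (Complex.conjCLE : ℂ ≃L[ℝ] ℂ).toContinuousLinearMap.integrable_comp hB
    exact hB.mul_prod hB'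
  have hfi : Integrable (Function.uncurry f) (volume.prod (μ.prod μ)) := by
    have h1 : Integrable (fun x : ℝ × (Ω × Ω) => ‖ν x.1‖ * ‖B x.2.1 * (starRingEnd ℂ) (B x.2.2)‖)
        (volume.prod (μ.prod μ)) := (nu_int0 h).norm.mul_prod hBB.norm
    refine h1.mono' ?_ (Eventually.of_forall fun x => ?_)
    · have h2 : Function.uncurry f = fun x : ℝ × (Ω × Ω) => (B x.2.1 * (starRingEnd ℂ) (B x.2.2)) *
          ((ν x.1 : ℂ) * Complex.exp (-(Complex.I * x.1 * ((Λ x.2.1 - Λ x.2.2 : ℝ) : ℂ)))) := by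
        funext x
        exact hfe x.1 x.2
      rw [h2]
      refine (hBB.aestronglyMeasurable.comp_snd).mul (Measurable.aestronglyMeasurable ?_)
      have hνm := h.1.measurable
      fun_prop
    · show ‖f x.1 x.2‖ ≤ _
      rw [hfe, norm_mul, norm_mul (ν x.1 : ℂ), norm_exp_form, mul_one, Complex.norm_real, mul_comm]
  have hS2 : ∀ y, ∫ z, f y z ∂(μ.prod μ) = ((ν y * ‖S y‖ ^ 2 : ℝ) : ℂ) := by
    intro y
    simp only [hf]
    rw [integral_const_mul, integral_prod_mul (fun ω => B ω * Complex.exp (-(Complex.I * y * Λ ω)))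
      (fun ω => (starRingEnd ℂ) (B ω * Complex.exp (-(Complex.I * y * Λ ω)))), integral_conj,
      Complex.mul_conj, Complex.normSq_eq_norm_sq]
    push_cast
    rfl
  have hIy : Integrable fun y => ν y * ‖S y‖ ^ 2 := by
    have h1 := hfi.integral_prod_left
    have h2 : Integrable fun y => ((ν y * ‖S y‖ ^ 2 : ℝ) : ℂ) :=
      h1.congr (Eventually.of_forall fun y => hS2 y)
    exact h2.re
  have hsw : ∫ y, ((ν y * ‖S y‖ ^ 2 : ℝ) : ℂ) =
      ∫ z, (B z.1 * (starRingEnd ℂ) (B z.2)) * (Fh ν (Λ z.1 - Λ z.2) : ℂ) ∂(μ.prod μ) := by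
    simp only [← hS2]
    rw [integral_integral_swap hfi]
    refine integral_congr_ae (Eventually.of_forall fun z => ?_)
    simp only [hfe]
    rw [integral_const_mul, Fh_exp h]
  have hFnn := (PTW.t ν h).1
  have hreal : ∫ y, ν y * ‖S y‖ ^ 2 ≤
      ∫ z, ‖B z.1‖ * ‖B z.2‖ * Fh ν (Λ z.1 - Λ z.2) ∂(μ.prod μ) := by
    have h1 : ((∫ y, ν y * ‖S y‖ ^ 2 : ℝ) : ℂ) =
        ∫ z, (B z.1 * (starRingEnd ℂ) (B z.2)) * (Fh ν (Λ z.1 - Λ z.2) : ℂ) ∂(μ.prod μ) := by
      rw [← hsw]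
      exact (integral_ofReal (𝕜 := ℂ) (f := fun y => ν y * ‖S y‖ ^ 2)).symm
    have h2 : (∫ y, ν y * ‖S y‖ ^ 2) ≤ ‖((∫ y, ν y * ‖S y‖ ^ 2 : ℝ) : ℂ)‖ := by
      rw [Complex.norm_real]
      exact le_abs_self _
    refine h2.trans ?_
    rw [h1]
    refine (norm_integral_le_integral_norm _).trans (le_of_eq ?_)
    refine integral_congr_ae (Eventually.of_forall fun z => ?_)
    simp only
    rw [norm_mul, norm_mul, RCLike.norm_conj, Complex.norm_real, Real.norm_of_nonneg (hFnn _)]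
  have hL : ∫⁻ y : ℝ, ENNReal.ofReal (ν y) * ‖S y‖ₑ ^ 2 = ENNReal.ofReal (∫ y, ν y * ‖S y‖ ^ 2) := by
    rw [ofReal_integral_eq_lintegral_ofReal hIy
      (Eventually.of_forall fun y => mul_nonneg (h.2.1 y) (sq_nonneg _))]
    refine lintegral_congr fun y => ?_
    rw [ENNReal.ofReal_mul (h.2.1 y), ENNReal.ofReal_pow (norm_nonneg _), ofReal_norm]
  show ∫⁻ y : ℝ, ENNReal.ofReal (ν y) * ‖S y‖ₑ ^ 2 ≤ _
  rw [hL]
  refine (ENNReal.ofReal_le_ofReal hreal).trans ?_
  exact ofReal_int_le (fun z => mul_nonneg (by positivity) (hFnn _))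

end Pool.Agent.H87.RP
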