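import Mathlib
import Pool.Agent.H87.RP.Key
import Pool.Agent.H87.RP.CM2
import Pool.Graph.R_pool_sql_team_seeded_63374d34.N892.BW.FOUR

/-!
Project RP, part GN2: the gain for the exponent 4.
-/

set_option autoImplicit false

open MeasureTheory ENNReal Filter Topology

namespace Pool.Agent.H87.RP

open Pool.Agent.H10.RP Pool.Agent.N892.BW

open scoped FourierTransform in
/-- Plancherel for the powers of a Fourier integral -/
theorem four_eq (j : ℕ) {F : ℂ → ℂ} (hF : Nice F) :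
    ∫⁻ x, ‖∫ u, F u * ex x u‖ₑ ^ (2 * (j + 1)) =
      ENNReal.ofReal ((2 * Real.pi) ^ 2) * ∫⁻ u, ‖FOUR.Hp F j u‖ₑ ^ 2 := by
  have hH := FOUR.Hp_nice hF j
  have hc : Continuous (𝓕 (FOUR.Hp F j)) :=
    VectorFourier.fourierIntegral_continuous (L := innerₗ ℂ) Real.continuous_fourierChar
      continuous_inner (FOUR.nice_int hH)
  calc ∫⁻ x, ‖∫ u, F u * ex x u‖ₑ ^ (2 * (j + 1)) =
      ∫⁻ x, (fun ξ => ‖𝓕 (FOUR.Hp F j) ξ‖ₑ ^ 2) ((2 * Real.pi)⁻¹ • FOUR.rt x) := by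
        refine lintegral_congr fun x => ?_
        simp only
        rw [FOUR.ex_four, FOUR.Hp_four hF, enorm_pow, ← pow_mul]
        congr 1
        ring
    _ = ENNReal.ofReal ((2 * Real.pi) ^ 2) * ∫⁻ ξ, ‖𝓕 (FOUR.Hp F j) ξ‖ₑ ^ 2 :=
        FOUR.scale _ (hc.enorm.measurable.pow_const _)
    _ = ENNReal.ofReal ((2 * Real.pi) ^ 2) * ∫⁻ u, ‖FOUR.Hp F j u‖ₑ ^ 2 := by
        rw [Pool.Agent.H153R4.plancherel _ (FOUR.nice_int hH) (FOUR.nice_memLp hH 2)]

theorem nice_mul_shift {G H : ℂ → ℂ} (hG : Nice G) (hH : Nice H) (s : ℂ) :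
    Nice fun u => G u * H (s - u) := by
  obtain ⟨hGm, ⟨M, hM⟩, ⟨R, hR⟩⟩ := hG
  obtain ⟨hHm, ⟨N, hN⟩, _⟩ := hH
  refine ⟨by fun_prop, ⟨M * N, fun x => ?_⟩, ⟨R, fun x hx => ?_⟩⟩
  · rw [norm_mul]
    exact mul_le_mul (hM x) (hN _) (norm_nonneg _) ((norm_nonneg _).trans (hM x))
  · show G x * H (s - x) = 0
    rw [hR x hx, zero_mul]

/-- the data of GN2 and GN3 -/
structure Dat (V : ℂ → ℝ) (om : ℂ → ℂ) (r R M : ℝ) : Prop where
  Vm : Measurable V
  om_m : Measurable om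
  r0 : 0 < r
  Vb : ∀ u, 0 ≤ V u ∧ V u ≤ M
  ob : ∀ u, ‖om u‖ ≤ 1
  sp : ∀ u, V u ≠ 0 → r ≤ ‖u‖ ∧ ‖u‖ ≤ R

/-- the modulus -/
noncomputable def AA' (c : ℝ) (V : ℂ → ℝ) (u : ℂ) : ℝ := ‖u‖ ^ (-c) * V u

/-- the phase -/
noncomputable def LL (k : ℝ) (V : ℂ → ℝ) (u : ℂ) : ℝ := k * Real.log ‖u‖ + Real.log (V u)

section

variable {V : ℂ → ℝ} {om : ℂ → ℂ} {r R M : ℝ} (hD : Dat V om r R M)

include hD

theorem Dat.ne {u : ℂ} (hu : V u ≠ 0) : u ≠ 0 := by
  have h1 := (hD.sp u hu).1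
  have := hD.r0
  intro h
  rw [h, norm_zero] at h1
  linarith

theorem Dat.A_nonneg (c : ℝ) (u : ℂ) : 0 ≤ AA' c V u :=
  mul_nonneg (Real.rpow_nonneg (norm_nonneg _) _) (hD.Vb u).1

theorem Dat.A_le {c : ℝ} (hc : 0 ≤ c) (u : ℂ) : AA' c V u ≤ r ^ (-c) * M := by
  have hM : 0 ≤ M := (hD.Vb 0).1.trans (hD.Vb 0).2
  unfold AA'
  rcases eq_or_ne (V u) 0 with hu | hu
  · rw [hu, mul_zero]
    exact mul_nonneg (Real.rpow_nonneg hD.r0.le _) hM
  · exact mul_le_mul (Real.rpow_le_rpow_of_nonpos hD.r0 (hD.sp u hu).1 (by linarith))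
      (hD.Vb u).2 (hD.Vb u).1 (Real.rpow_nonneg hD.r0.le _)

theorem Dat.A_meas (c : ℝ) : Measurable (AA' c V) := by
  have := hD.Vm
  unfold AA'
  exact (measurable_norm.pow_const _).mul this

theorem Dat.L_meas (k : ℝ) : Measurable (LL k V) := by
  have := hD.Vm
  unfold LL
  exact ((Real.measurable_log.comp measurable_norm).const_mul k).add (Real.measurable_log.comp this)

theorem Dat.G_nice {c : ℝ} (hc : 0 ≤ c) : Nice fun u => om u * (AA' c V u : ℂ) := by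
  refine ⟨hD.om_m.mul (Complex.measurable_ofReal.comp (hD.A_meas c)),
    ⟨r ^ (-c) * M, fun u => ?_⟩, ⟨R, fun u hu => ?_⟩⟩
  · rw [norm_mul, Complex.norm_real, Real.norm_of_nonneg (hD.A_nonneg c u)]
    exact (mul_le_of_le_one_left (hD.A_nonneg c u) (hD.ob u)).trans (hD.A_le hc u)
  · have h1 : V u = 0 := by
      by_contra h
      exact absurd (hD.sp u h).2 (not_le.2 hu)
    show om u * ((‖u‖ ^ (-c) * V u : ℝ) : ℂ) = 0
    rw [h1, mul_zero, Complex.ofReal_zero, mul_zero]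

/-- the form of the functions -/
theorem Dat.form {c k : ℝ} (y : ℝ) (u : ℂ) {s : ℂ} (hs : s = -(c : ℂ) - Complex.I * y * k) :
    om u * ((((‖u‖ : ℝ) : ℂ) ^ s) * (V u : ℂ) ^ (1 - Complex.I * y)) =
      om u * (AA' c V u : ℂ) * Complex.exp (-(Complex.I * y * LL k V u)) := by
  unfold AA'
  rcases eq_or_ne (V u) 0 with hu | hu
  · have h1 : (1 - Complex.I * y : ℂ) ≠ 0 := by
      intro h
      have := congrArg Complex.re h
      simp at this
    rw [hu, Complex.ofReal_zero, Complex.zero_cpow h1, mul_zero, mul_zero, mul_zero,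
      Complex.ofReal_zero, mul_zero, zero_mul]
  · have hu0 := norm_pos_iff.2 (hD.ne hu)
    have hV : 0 < V u := lt_of_le_of_ne (hD.Vb u).1 (Ne.symm hu)
    have e1 : ((‖u‖ : ℝ) : ℂ) ^ s = Complex.exp (s * Real.log ‖u‖) := by
      rw [Complex.cpow_def_of_ne_zero (Complex.ofReal_ne_zero.2 hu0.ne'),
        ← Complex.ofReal_log hu0.le, mul_comm]
    have e2 : (V u : ℂ) ^ (1 - Complex.I * y) =
        Complex.exp ((1 - Complex.I * y) * Real.log (V u)) := by
      rw [Complex.cpow_def_of_ne_zero (Complex.ofReal_ne_zero.2 hV.ne'),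
        ← Complex.ofReal_log hV.le, mul_comm]
    have e3 : ((‖u‖ ^ (-c) * V u : ℝ) : ℂ) =
        Complex.exp (-(c : ℂ) * Real.log ‖u‖ + Real.log (V u)) := by
      rw [Real.rpow_def_of_pos hu0, Complex.ofReal_mul, Complex.ofReal_exp, Complex.exp_add,
        ← Complex.ofReal_exp (Real.log (V u)), Real.exp_log hV]
      push_cast
      congr 2
      ring
    rw [e1, e2, e3, mul_assoc (om u), ← Complex.exp_add, ← Complex.exp_add]
    congr 2
    rw [hs]
    unfold LL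
    push_cast
    ring

theorem Dat.F_nice {c k : ℝ} (hc : 0 ≤ c) (y : ℝ) :
    Nice fun u => om u * (AA' c V u : ℂ) * Complex.exp (-(Complex.I * y * LL k V u)) := by
  obtain ⟨hm, ⟨M', hM'⟩, ⟨R', hR'⟩⟩ := hD.G_nice hc
  refine ⟨hm.mul ?_, ⟨M', fun u => ?_⟩, ⟨R', fun u hu => ?_⟩⟩
  · have := hD.L_meas k
    fun_prop
  · rw [norm_mul, norm_exp_form, mul_one]
    exact hM' u
  · have h3 : om u * (AA' c V u : ℂ) = 0 := hR' u hu
    show om u * (AA' c V u : ℂ) * Complex.exp (-(Complex.I * y * LL k V u)) = 0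
    rw [h3, zero_mul]

end

namespace GN2

/-- the product weight -/
noncomputable def W (a b c d : ℂ) : ℝ := (‖a‖ * ‖b‖ * (‖c‖ * ‖d‖)) ^ (-(3 / 2) : ℝ)

noncomputable def hf (a b c d : ℂ) : ℝ := Real.log (‖a‖ * ‖b‖ / (‖c‖ * ‖d‖)) / 2

theorem W_nonneg (a b c d : ℂ) : 0 ≤ W a b c d := Real.rpow_nonneg (by positivity) _

theorem W_swap (a b c d : ℂ) : W c d a b = W a b c d := by
  unfold W
  rw [mul_comm]

theorem W_swap' (a b c d : ℂ) : W b a c d = W a b c d := by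
  unfold W
  rw [mul_comm ‖b‖]

theorem hf_swap (a b c d : ℂ) : hf c d a b = -hf a b c d := by
  unfold hf
  rw [← inv_div (‖a‖ * ‖b‖), Real.log_inv]
  ring

theorem hf_swap' (a b c d : ℂ) : hf b a c d = hf a b c d := by
  unfold hf
  rw [mul_comm ‖b‖]

noncomputable def T1 (ν : ℝ → ℝ) (V : ℂ → ℝ) (a b c d : ℂ) : ℝ≥0∞ :=
  ENNReal.ofReal (W a b c d * (V a * V b) ^ 2 * Gh ν (hf a b c d))

noncomputable def T2 (ν : ℝ → ℝ) (V : ℂ → ℝ) (a b c d : ℂ) : ℝ≥0∞ :=
  ENNReal.ofReal (W a b c d * V a ^ 4 * Gh ν (hf a b c d))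

theorem meas_W {α : Type*} [MeasurableSpace α] {a b c d : α → ℂ} (ha : Measurable a)
    (hb : Measurable b) (hc : Measurable c) (hd : Measurable d) :
    Measurable fun x => W (a x) (b x) (c x) (d x) := by
  unfold W
  exact ((ha.norm.mul hb.norm).mul (hc.norm.mul hd.norm)).pow_const _

theorem meas_hf {α : Type*} [MeasurableSpace α] {a b c d : α → ℂ} (ha : Measurable a)
    (hb : Measurable b) (hc : Measurable c) (hd : Measurable d) :
    Measurable fun x => hf (a x) (b x) (c x) (d x) := by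
  unfold hf
  exact (Real.measurable_log.comp ((ha.norm.mul hb.norm).div (hc.norm.mul hd.norm))).div_const 2

theorem meas_T1 {α : Type*} [MeasurableSpace α] {ν : ℝ → ℝ} (h : Nu ν) {V : ℂ → ℝ}
    (hV : Measurable V) {a b c d : α → ℂ} (ha : Measurable a)
    (hb : Measurable b) (hc : Measurable c) (hd : Measurable d) :
    Measurable fun x => T1 ν V (a x) (b x) (c x) (d x) := by
  unfold T1
  exact (((meas_W ha hb hc hd).mul (((hV.comp ha).mul (hV.comp hb)).pow_const 2)).mul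
    ((Gh_cont h).measurable.comp (meas_hf ha hb hc hd))).ennreal_ofReal

theorem meas_T2 {α : Type*} [MeasurableSpace α] {ν : ℝ → ℝ} (h : Nu ν) {V : ℂ → ℝ}
    (hV : Measurable V) {a b c d : α → ℂ} (ha : Measurable a)
    (hb : Measurable b) (hc : Measurable c) (hd : Measurable d) :
    Measurable fun x => T2 ν V (a x) (b x) (c x) (d x) := by
  unfold T2
  exact (((meas_W ha hb hc hd).mul ((hV.comp ha).pow_const 4)).mul
    ((Gh_cont h).measurable.comp (meas_hf ha hb hc hd))).ennreal_ofReal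

/-- the pointwise inequality -/
theorem point {ν : ℝ → ℝ} (h : Nu ν) {V : ℂ → ℝ} {om : ℂ → ℂ} {r R M : ℝ} (hD : Dat V om r R M)
    (a b c d : ℂ) :
    2 * ENNReal.ofReal (AA' (3 / 2) V a * AA' (3 / 2) V b * (AA' (3 / 2) V c * AA' (3 / 2) V d) *
      Fh ν (LL (1 / 2) V a + LL (1 / 2) V b - (LL (1 / 2) V c + LL (1 / 2) V d))) ≤
    T1 ν V a b c d + T1 ν V c d a b := by
  obtain ⟨hF, hG, hP⟩ := PTW.t ν h
  have hz : AA' (3 / 2) V a * AA' (3 / 2) V b * (AA' (3 / 2) V c * AA' (3 / 2) V d) = 0 →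
      2 * ENNReal.ofReal (AA' (3 / 2) V a * AA' (3 / 2) V b * (AA' (3 / 2) V c * AA' (3 / 2) V d) *
      Fh ν (LL (1 / 2) V a + LL (1 / 2) V b - (LL (1 / 2) V c + LL (1 / 2) V d))) ≤
      T1 ν V a b c d + T1 ν V c d a b := by
    intro h0
    rw [h0, zero_mul, ENNReal.ofReal_zero, mul_zero]
    exact zero_le
  rcases eq_or_ne (V a) 0 with ha | ha
  · exact hz (by unfold AA'; rw [ha]; ring)
  rcases eq_or_ne (V b) 0 with hb | hb
  · exact hz (by unfold AA'; rw [hb]; ring)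
  rcases eq_or_ne (V c) 0 with hc | hc
  · exact hz (by unfold AA'; rw [hc]; ring)
  rcases eq_or_ne (V d) 0 with hd | hd
  · exact hz (by unfold AA'; rw [hd]; ring)
  have na := norm_pos_iff.2 (hD.ne ha)
  have nb := norm_pos_iff.2 (hD.ne hb)
  have nc := norm_pos_iff.2 (hD.ne hc)
  have nd := norm_pos_iff.2 (hD.ne hd)
  have va : 0 < V a := lt_of_le_of_ne (hD.Vb a).1 (Ne.symm ha)
  have vb : 0 < V b := lt_of_le_of_ne (hD.Vb b).1 (Ne.symm hb)
  have vc : 0 < V c := lt_of_le_of_ne (hD.Vb c).1 (Ne.symm hc)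
  have vd : 0 < V d := lt_of_le_of_ne (hD.Vb d).1 (Ne.symm hd)
  set P := V a * V b with hPd
  set Q := V c * V d with hQd
  have hP0 : 0 < P := mul_pos va vb
  have hQ0 : 0 < Q := mul_pos vc vd
  set X := Real.log P - Real.log Q with hX
  have eA : AA' (3 / 2) V a * AA' (3 / 2) V b * (AA' (3 / 2) V c * AA' (3 / 2) V d) =
      W a b c d * (P * Q) := by
    unfold AA' W
    rw [Real.mul_rpow (by positivity) (by positivity), Real.mul_rpow na.le nb.le,
      Real.mul_rpow nc.le nd.le, hPd, hQd]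
    ring
  have eL : LL (1 / 2) V a + LL (1 / 2) V b - (LL (1 / 2) V c + LL (1 / 2) V d) =
      X + hf a b c d := by
    unfold LL hf
    rw [hX, hPd, hQd, Real.log_mul va.ne' vb.ne', Real.log_mul vc.ne' vd.ne',
      Real.log_div (by positivity) (by positivity), Real.log_mul na.ne' nb.ne',
      Real.log_mul nc.ne' nd.ne']
    ring
  have eX : Real.exp X = P / Q := by
    rw [hX, Real.exp_sub, Real.exp_log hP0, Real.exp_log hQ0]
  have eX' : Real.exp (-X) = Q / P := by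
    rw [Real.exp_neg, eX, inv_div]
  have h1 := hP X (hf a b c d)
  rw [eX, eX'] at h1
  have hW := W_nonneg a b c d
  have h2 : 2 * (W a b c d * (P * Q) * Fh ν (X + hf a b c d)) ≤
      W a b c d * P ^ 2 * Gh ν (hf a b c d) + W a b c d * Q ^ 2 * Gh ν (-hf a b c d) := by
    have h3 := mul_le_mul_of_nonneg_left h1 (mul_nonneg hW (mul_pos hP0 hQ0).le)
    have e3 : W a b c d * (P * Q) * (Gh ν (hf a b c d) * (P / Q) + Gh ν (-hf a b c d) * (Q / P)) =
        W a b c d * P ^ 2 * Gh ν (hf a b c d) + W a b c d * Q ^ 2 * Gh ν (-hf a b c d) := by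
      field_simp
    linarith
  unfold T1
  rw [W_swap a b c d, hf_swap a b c d, ← hPd, ← hQd, eA, eL, ← ENNReal.ofReal_add
    (mul_nonneg (mul_nonneg hW (by positivity)) (hG _))
    (mul_nonneg (mul_nonneg hW (by positivity)) (hG _))]
  have e4 : (2 : ℝ≥0∞) = ENNReal.ofReal 2 := by norm_num
  rw [e4, ← ENNReal.ofReal_mul (by norm_num)]
  exact ENNReal.ofReal_le_ofReal h2

theorem T1_le {ν : ℝ → ℝ} (h : Nu ν) (V : ℂ → ℝ) (a b c d : ℂ) :
    2 * T1 ν V a b c d ≤ T2 ν V a b c d + T2 ν V b a c d := by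
  obtain ⟨hF, hG, hP⟩ := PTW.t ν h
  unfold T1 T2
  rw [W_swap' a b c d, hf_swap' a b c d, ← ENNReal.ofReal_add
    (mul_nonneg (mul_nonneg (W_nonneg _ _ _ _) (by positivity)) (hG _))
    (mul_nonneg (mul_nonneg (W_nonneg _ _ _ _) (by positivity)) (hG _))]
  have e4 : (2 : ℝ≥0∞) = ENNReal.ofReal 2 := by norm_num
  rw [e4, ← ENNReal.ofReal_mul (by norm_num)]
  apply ENNReal.ofReal_le_ofReal
  have h1 : 2 * (V a * V b) ^ 2 ≤ V a ^ 4 + V b ^ 4 := by nlinarith [sq_nonneg (V a ^ 2 - V b ^ 2)]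
  have h2 := mul_le_mul_of_nonneg_left h1 (mul_nonneg (W_nonneg a b c d) (hG (hf a b c d)))
  linarith

/-- the integral of `T2` -/
theorem int_T2 (hC : R_CM2) {ν : ℝ → ℝ} (h : Nu ν) {V : ℂ → ℝ} {om : ℂ → ℂ} {r R M : ℝ}
    (hD : Dat V om r R M) :
    ∫⁻ s : ℂ, ∫⁻ u : ℂ, ∫⁻ v : ℂ, T2 ν V u (s - u) v (s - v) =
      ENNReal.ofReal (Real.pi ^ 2 * ∫ y : ℝ, ν y * ‖gm (1 / 2 + Complex.I * y / 2)‖ ^ 4) *
        ∫⁻ u : ℂ, ENNReal.ofReal (V u ^ 4 / ‖u‖ ^ 2) := by
  have hV := hD.Vm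
  have hm : Measurable fun p : ℂ × ℂ => ∫⁻ v : ℂ, T2 ν V p.2 (p.1 - p.2) v (p.1 - v) := by
    have h1 : Measurable fun q : (ℂ × ℂ) × ℂ => T2 ν V q.1.2 (q.1.1 - q.1.2) q.2 (q.1.1 - q.2) :=
      meas_T2 h hV (by fun_prop) (by fun_prop) (by fun_prop) (by fun_prop)
    exact h1.lintegral_prod_right'
  rw [lintegral_lintegral_swap hm.aemeasurable]
  rw [← lintegral_const_mul _ (by fun_prop : Measurable fun u : ℂ =>
    ENNReal.ofReal (V u ^ 4 / ‖u‖ ^ 2))]
  refine lintegral_congr fun u => ?_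
  rw [← lintegral_add_left_eq_self (fun s => ∫⁻ v : ℂ, T2 ν V u (s - u) v (s - v)) u]
  rcases eq_or_ne u 0 with rfl | hu
  · have h0 : V 0 = 0 := by
      by_contra h1
      exact hD.ne h1 rfl
    simp [T2, h0]
  · have hu0 := norm_pos_iff.2 hu
    have e1 : ∀ b v : ℂ, T2 ν V u (u + b - u) v (u + b - v) =
        ENNReal.ofReal (V u ^ 4 * ‖u‖ ^ (-(3 / 2) : ℝ)) *
        ENNReal.ofReal ((‖b‖ * ‖v‖ * ‖u + b - v‖) ^ (-(3 / 2) : ℝ) *
          Gh ν (Real.log (‖u‖ * ‖b‖ / (‖v‖ * ‖u + b - v‖)) / 2)) := by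
      intro b v
      rw [← ENNReal.ofReal_mul (mul_nonneg (by positivity) (Real.rpow_nonneg hu0.le _))]
      unfold T2 W hf
      congr 1
      rw [add_sub_cancel_left]
      have e2 : ‖u‖ * ‖b‖ * (‖v‖ * ‖u + b - v‖) = ‖u‖ * (‖b‖ * ‖v‖ * ‖u + b - v‖) := by ring
      rw [e2, Real.mul_rpow hu0.le (by positivity)]
      ring
    simp only [e1]
    have hm2 : ∀ b : ℂ, Measurable fun v : ℂ => ENNReal.ofReal
        ((‖b‖ * ‖v‖ * ‖u + b - v‖) ^ (-(3 / 2) : ℝ) *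
          Gh ν (Real.log (‖u‖ * ‖b‖ / (‖v‖ * ‖u + b - v‖)) / 2)) := by
      intro b
      have hGm := (Gh_cont h).measurable
      have h1 : Measurable fun v : ℂ => ‖b‖ * ‖v‖ * ‖u + b - v‖ := by fun_prop
      have h2 : Measurable fun v : ℂ => Real.log (‖u‖ * ‖b‖ / (‖v‖ * ‖u + b - v‖)) / 2 :=
        (Real.measurable_log.comp (by fun_prop)).div_const 2
      exact ((h1.pow_const _).mul (hGm.comp h2)).ennreal_ofReal
    have hm3 : Measurable fun b : ℂ => ∫⁻ v : ℂ, ENNReal.ofReal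
        ((‖b‖ * ‖v‖ * ‖u + b - v‖) ^ (-(3 / 2) : ℝ) *
          Gh ν (Real.log (‖u‖ * ‖b‖ / (‖v‖ * ‖u + b - v‖)) / 2)) := by
      have hGm := (Gh_cont h).measurable
      have h1 : Measurable fun q : ℂ × ℂ => ‖q.1‖ * ‖q.2‖ * ‖u + q.1 - q.2‖ := by fun_prop
      have h2 : Measurable fun q : ℂ × ℂ =>
          Real.log (‖u‖ * ‖q.1‖ / (‖q.2‖ * ‖u + q.1 - q.2‖)) / 2 :=
        (Real.measurable_log.comp (by fun_prop)).div_const 2
      exact ((h1.pow_const _).mul (hGm.comp h2)).ennreal_ofReal.lintegral_prod_right'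
    simp only [lintegral_const_mul _ (hm2 _)]
    rw [lintegral_const_mul _ hm3, hC ν h u hu]
    have hK : 0 ≤ ∫ y : ℝ, ν y * ‖gm (1 / 2 + Complex.I * y / 2)‖ ^ 4 :=
      integral_nonneg fun y => mul_nonneg (h.2.1 y) (by positivity)
    rw [← ENNReal.ofReal_mul (mul_nonneg (by positivity) (Real.rpow_nonneg hu0.le _)),
      ← ENNReal.ofReal_mul (mul_nonneg (by positivity) hK)]
    congr 1
    have e3 : ‖u‖ ^ (-(3 / 2) : ℝ) * ‖u‖ ^ (-(1 / 2) : ℝ) = (‖u‖ ^ 2)⁻¹ := by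
      rw [← Real.rpow_add hu0, ← Real.rpow_natCast, ← Real.rpow_neg hu0.le]
      norm_num
    rw [div_eq_mul_inv (V u ^ 4)]
    linear_combination (V u ^ 4 *
      (Real.pi ^ 2 * ∫ y : ℝ, ν y * ‖gm (1 / 2 + Complex.I * y / 2)‖ ^ 4)) * e3

theorem t (hR : R_RZC) : R_GN2 := by
  intro ν h V om r R M hVm hom hr hVb hob hsp
  have hC := CM2.t hR
  have hD : Dat V om r R M := ⟨hVm, hom, hr, hVb, hob, hsp⟩
  have hFnn := (PTW.t ν h).1
  set G : ℂ → ℂ := fun u => om u * (AA' (3 / 2) V u : ℂ) with hGd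
  have hG : Nice G := hD.G_nice (by norm_num)
  have hLm := hD.L_meas (1 / 2)
  have hAm := hD.A_meas (3 / 2)
  have hGm : Measurable G := hG.1
  -- the square of the convolution
  set S : ℝ → ℂ → ℂ := fun y s => ∫ u, G u * G (s - u) *
    Complex.exp (-(Complex.I * y * ((LL (1 / 2) V u + LL (1 / 2) V (s - u) : ℝ) : ℂ))) with hS
  have e1 : ∀ y : ℝ, ∫⁻ x : ℂ, ‖∫ u : ℂ, (om u *
      ((((‖u‖ : ℝ) : ℂ) ^ (-(3 / 2) - Complex.I * y / 2)) * (V u : ℂ) ^ (1 - Complex.I * y))) *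
      ex x u‖ₑ ^ 4 = ENNReal.ofReal ((2 * Real.pi) ^ 2) * ∫⁻ s, ‖S y s‖ₑ ^ 2 := by
    intro y
    have h1 := four_eq 1 (hD.F_nice (c := 3 / 2) (k := 1 / 2) (by norm_num) y)
    have h4 : 2 * (1 + 1) = 4 := rfl
    rw [h4] at h1
    have h2 : ∀ u, om u * ((((‖u‖ : ℝ) : ℂ) ^ (-(3 / 2) - Complex.I * y / 2)) *
        (V u : ℂ) ^ (1 - Complex.I * y)) =
        om u * (AA' (3 / 2) V u : ℂ) * Complex.exp (-(Complex.I * y * LL (1 / 2) V u)) := by
      intro u
      refine hD.form y u ?_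
      push_cast
      ring
    simp only [h2]
    rw [h1]
    congr 1
    refine lintegral_congr fun s => ?_
    congr 2
    show ∫ u, (om u * (AA' (3 / 2) V u : ℂ) * Complex.exp (-(Complex.I * y * LL (1 / 2) V u))) *
      (om (s - u) * (AA' (3 / 2) V (s - u) : ℂ) *
        Complex.exp (-(Complex.I * y * LL (1 / 2) V (s - u)))) = _
    refine integral_congr_ae (Eventually.of_forall fun u => ?_)
    simp only [hGd]
    have e2 : Complex.exp (-(Complex.I * y *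
        ((LL (1 / 2) V u + LL (1 / 2) V (s - u) : ℝ) : ℂ))) =
        Complex.exp (-(Complex.I * y * LL (1 / 2) V u)) *
        Complex.exp (-(Complex.I * y * LL (1 / 2) V (s - u))) := by
      rw [← Complex.exp_add]
      congr 1
      push_cast
      ring
    rw [e2]
    ring
  simp only [e1]
  have hSm : Measurable fun p : ℝ × ℂ => S p.1 p.2 := by
    have h1 : Measurable fun q : (ℝ × ℂ) × ℂ => G q.2 * G (q.1.2 - q.2) *
        Complex.exp (-(Complex.I * q.1.1 *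
          ((LL (1 / 2) V q.2 + LL (1 / 2) V (q.1.2 - q.2) : ℝ) : ℂ))) := by
      fun_prop
    exact h1.stronglyMeasurable.integral_prod_right'.measurable
  have e2 : ∫⁻ y : ℝ, ENNReal.ofReal (ν y) *
      (ENNReal.ofReal ((2 * Real.pi) ^ 2) * ∫⁻ s, ‖S y s‖ₑ ^ 2) =
      ENNReal.ofReal ((2 * Real.pi) ^ 2) *
        ∫⁻ s, ∫⁻ y : ℝ, ENNReal.ofReal (ν y) * ‖S y s‖ₑ ^ 2 := by
    have hνm := h.1.measurable
    have hj : Measurable fun p : ℝ × ℂ => ENNReal.ofReal (ν p.1) * ‖S p.1 p.2‖ₑ ^ 2 :=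
      (hνm.comp measurable_fst).ennreal_ofReal.mul (hSm.enorm.pow_const 2)
    rw [← lintegral_lintegral_swap hj.aemeasurable, ← lintegral_const_mul _
      hj.lintegral_prod_right']
    refine lintegral_congr fun y => ?_
    have hj2 : Measurable fun s : ℂ => ‖S y s‖ₑ ^ 2 :=
      (hSm.comp measurable_prodMk_left).enorm.pow_const 2
    show _ = _ * ∫⁻ s : ℂ, ENNReal.ofReal (ν y) * ‖S y s‖ₑ ^ 2
    rw [lintegral_const_mul _ hj2]
    ring
  rw [e2]
  have e3 : ∀ s : ℂ, ∫⁻ y : ℝ, ENNReal.ofReal (ν y) * ‖S y s‖ₑ ^ 2 ≤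
      ∫⁻ u : ℂ, ∫⁻ v : ℂ, ENNReal.ofReal (AA' (3 / 2) V u * AA' (3 / 2) V (s - u) *
        (AA' (3 / 2) V v * AA' (3 / 2) V (s - v)) *
        Fh ν (LL (1 / 2) V u + LL (1 / 2) V (s - u) -
          (LL (1 / 2) V v + LL (1 / 2) V (s - v)))) := by
    intro s
    have hBi : Integrable fun u => G u * G (s - u) := FOUR.nice_int (nice_mul_shift hG hG s)
    have hΛ : Measurable fun u => LL (1 / 2) V u + LL (1 / 2) V (s - u) := by fun_prop
    refine (key h hBi hΛ).trans ?_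
    have hFm := (Fh_cont h).measurable
    have hm : Measurable fun z : ℂ × ℂ => ENNReal.ofReal (‖G z.1 * G (s - z.1)‖ *
        ‖G z.2 * G (s - z.2)‖ * Fh ν (LL (1 / 2) V z.1 + LL (1 / 2) V (s - z.1) -
          (LL (1 / 2) V z.2 + LL (1 / 2) V (s - z.2)))) := by
      have h1 : Measurable fun z : ℂ × ℂ => LL (1 / 2) V z.1 + LL (1 / 2) V (s - z.1) -
          (LL (1 / 2) V z.2 + LL (1 / 2) V (s - z.2)) := by fun_prop
      have h2 : Measurable fun z : ℂ × ℂ => ‖G z.1 * G (s - z.1)‖ * ‖G z.2 * G (s - z.2)‖ := by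
        fun_prop
      exact (h2.mul (hFm.comp h1)).ennreal_ofReal
    rw [lintegral_prod _ hm.aemeasurable]
    refine lintegral_mono fun u => lintegral_mono fun v => ENNReal.ofReal_le_ofReal ?_
    have hn : ∀ w, ‖G w‖ ≤ AA' (3 / 2) V w := by
      intro w
      simp only [hGd]
      rw [norm_mul, Complex.norm_real, Real.norm_of_nonneg (hD.A_nonneg _ w)]
      exact mul_le_of_le_one_left (hD.A_nonneg _ w) (hob w)
    refine mul_le_mul_of_nonneg_right ?_ (hFnn _)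
    show ‖G u * G (s - u)‖ * ‖G v * G (s - v)‖ ≤ _
    rw [norm_mul (G u) (G (s - u)), norm_mul (G v) (G (s - v))]
    have h0 := hD.A_nonneg (3 / 2)
    exact mul_le_mul (mul_le_mul (hn _) (hn _) (norm_nonneg _) (h0 _))
      (mul_le_mul (hn _) (hn _) (norm_nonneg _) (h0 _)) (by positivity)
      (mul_nonneg (h0 _) (h0 _))
  -- symmetrisation
  set J := ∫⁻ s : ℂ, ∫⁻ u : ℂ, ∫⁻ v : ℂ, ENNReal.ofReal (AA' (3 / 2) V u * AA' (3 / 2) V (s - u) *
        (AA' (3 / 2) V v * AA' (3 / 2) V (s - v)) *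
        Fh ν (LL (1 / 2) V u + LL (1 / 2) V (s - u) -
          (LL (1 / 2) V v + LL (1 / 2) V (s - v)))) with hJ
  set J1 := ∫⁻ s : ℂ, ∫⁻ u : ℂ, ∫⁻ v : ℂ, T1 ν V u (s - u) v (s - v) with hJ1
  set J2 := ∫⁻ s : ℂ, ∫⁻ u : ℂ, ∫⁻ v : ℂ, T2 ν V u (s - u) v (s - v) with hJ2
  have two_ne : (2 : ℝ≥0∞) ≠ 0 := by norm_num
  have two_top : (2 : ℝ≥0∞) ≠ ∞ := by norm_num
  have hJJ1 : J ≤ J1 := by
    have h1 : 2 * J ≤ 2 * J1 := by
      have h2 : 2 * J ≤ ∫⁻ s : ℂ, ∫⁻ u : ℂ, ∫⁻ v : ℂ,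
          (T1 ν V u (s - u) v (s - v) + T1 ν V v (s - v) u (s - u)) := by
        rw [hJ, ← lintegral_const_mul' _ _ two_top]
        refine lintegral_mono fun s => ?_
        rw [← lintegral_const_mul' _ _ two_top]
        refine lintegral_mono fun u => ?_
        rw [← lintegral_const_mul' _ _ two_top]
        exact lintegral_mono fun v => point h hD u (s - u) v (s - v)
      refine h2.trans (le_of_eq ?_)
      have ma : ∀ s u : ℂ, Measurable fun v : ℂ => T1 ν V u (s - u) v (s - v) := fun s u =>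
        meas_T1 h hVm (by fun_prop) (by fun_prop) (by fun_prop) (by fun_prop)
      have mb : ∀ s : ℂ, Measurable fun u : ℂ => ∫⁻ v : ℂ, T1 ν V u (s - u) v (s - v) := fun s =>
        (meas_T1 (α := ℂ × ℂ) h hVm (a := fun p => p.1) (b := fun p => s - p.1)
          (c := fun p => p.2) (d := fun p => s - p.2) (by fun_prop) (by fun_prop) (by fun_prop)
          (by fun_prop)).lintegral_prod_right'
      have mc : Measurable fun s : ℂ => ∫⁻ u : ℂ, ∫⁻ v : ℂ, T1 ν V u (s - u) v (s - v) :=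
        (meas_T1 (α := (ℂ × ℂ) × ℂ) h hVm (a := fun p => p.1.2) (b := fun p => p.1.1 - p.1.2)
          (c := fun p => p.2) (d := fun p => p.1.1 - p.2) (by fun_prop) (by fun_prop)
          (by fun_prop) (by fun_prop)).lintegral_prod_right'.lintegral_prod_right'
      have hswap : ∀ s : ℂ, ∫⁻ u : ℂ, ∫⁻ v : ℂ, T1 ν V v (s - v) u (s - u) =
          ∫⁻ u : ℂ, ∫⁻ v : ℂ, T1 ν V u (s - u) v (s - v) := fun s =>
        lintegral_lintegral_swap (f := fun u v => T1 ν V v (s - v) u (s - u))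
          (meas_T1 (α := ℂ × ℂ) h hVm (a := fun p => p.2) (b := fun p => s - p.2)
          (c := fun p => p.1) (d := fun p => s - p.1) (by fun_prop) (by fun_prop) (by fun_prop)
          (by fun_prop)).aemeasurable
      simp only [lintegral_add_left (ma _ _)]
      simp only [lintegral_add_left (mb _)]
      rw [lintegral_add_left mc]
      simp only [hswap]
      rw [two_mul]
    exact (ENNReal.mul_le_mul_iff_right two_ne two_top).1 h1
  have hJ12 : J1 ≤ J2 := by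
    have h1 : 2 * J1 ≤ 2 * J2 := by
      have h2 : 2 * J1 ≤ ∫⁻ s : ℂ, ∫⁻ u : ℂ, ∫⁻ v : ℂ,
          (T2 ν V u (s - u) v (s - v) + T2 ν V (s - u) u v (s - v)) := by
        rw [hJ1, ← lintegral_const_mul' _ _ two_top]
        refine lintegral_mono fun s => ?_
        rw [← lintegral_const_mul' _ _ two_top]
        refine lintegral_mono fun u => ?_
        rw [← lintegral_const_mul' _ _ two_top]
        exact lintegral_mono fun v => T1_le h V u (s - u) v (s - v)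
      refine h2.trans (le_of_eq ?_)
      have ma : ∀ s u : ℂ, Measurable fun v : ℂ => T2 ν V u (s - u) v (s - v) := fun s u =>
        meas_T2 h hVm (by fun_prop) (by fun_prop) (by fun_prop) (by fun_prop)
      have mb : ∀ s : ℂ, Measurable fun u : ℂ => ∫⁻ v : ℂ, T2 ν V u (s - u) v (s - v) := fun s =>
        (meas_T2 (α := ℂ × ℂ) h hVm (a := fun p => p.1) (b := fun p => s - p.1)
          (c := fun p => p.2) (d := fun p => s - p.2) (by fun_prop) (by fun_prop) (by fun_prop)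
          (by fun_prop)).lintegral_prod_right'
      have mc : Measurable fun s : ℂ => ∫⁻ u : ℂ, ∫⁻ v : ℂ, T2 ν V u (s - u) v (s - v) :=
        (meas_T2 (α := (ℂ × ℂ) × ℂ) h hVm (a := fun p => p.1.2) (b := fun p => p.1.1 - p.1.2)
          (c := fun p => p.2) (d := fun p => p.1.1 - p.2) (by fun_prop) (by fun_prop)
          (by fun_prop) (by fun_prop)).lintegral_prod_right'.lintegral_prod_right'
      have hswap : ∀ s : ℂ, ∫⁻ u : ℂ, ∫⁻ v : ℂ, T2 ν V (s - u) u v (s - v) =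
          ∫⁻ u : ℂ, ∫⁻ v : ℂ, T2 ν V u (s - u) v (s - v) := by
        intro s
        have h3 := lintegral_sub_left_eq_self (μ := volume)
          (fun u : ℂ => ∫⁻ v : ℂ, T2 ν V u (s - u) v (s - v)) s
        rw [← h3]
        refine lintegral_congr fun u => lintegral_congr fun v => ?_
        rw [show s - (s - u) = u by ring]
      simp only [lintegral_add_left (ma _ _)]
      simp only [lintegral_add_left (mb _)]
      rw [lintegral_add_left mc]
      simp only [hswap]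
      rw [two_mul]
    exact (ENNReal.mul_le_mul_iff_right two_ne two_top).1 h1
  have hfin : ∫⁻ s, ∫⁻ y : ℝ, ENNReal.ofReal (ν y) * ‖S y s‖ₑ ^ 2 ≤ J2 :=
    ((lintegral_mono e3).trans hJJ1).trans hJ12
  refine (mul_le_mul_right hfin _).trans (le_of_eq ?_)
  rw [hJ2, int_T2 hC h hD, ← mul_assoc, ← ENNReal.ofReal_mul (by positivity)]
  congr 2
  ring

end GN2

end Pool.Agent.H87.RP
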