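import Mathlib
import Pool.Agent.H87.RP.GN2
import Pool.Agent.H87.RP.CM3

/-!
Project RP, part GN3: the gain for the exponent 6.
-/

set_option autoImplicit false
set_option maxHeartbeats 1000000

open MeasureTheory ENNReal Filter Topology

namespace Pool.Agent.H87.RP.GN3

open Pool.Agent.H10.RP Pool.Agent.N892.BW

/-! ### changes of variables -/

theorem sym1 {f : ℂ → ℂ → ℂ → ℝ≥0∞} (hf : Measurable fun p : ℂ × ℂ × ℂ => f p.1 p.2.1 p.2.2)
    (s : ℂ) : ∫⁻ u, ∫⁻ u', f u' u (s - u - u') = ∫⁻ u, ∫⁻ u', f u u' (s - u - u') := by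
  have h1 : Measurable fun p : ℂ × ℂ => f p.2 p.1 (s - p.1 - p.2) :=
    hf.comp (by fun_prop : Measurable fun p : ℂ × ℂ => ((p.2, p.1, s - p.1 - p.2) : ℂ × ℂ × ℂ))
  rw [lintegral_lintegral_swap (f := fun u u' => f u' u (s - u - u')) h1.aemeasurable]
  refine lintegral_congr fun u => lintegral_congr fun u' => ?_
  rw [sub_right_comm]

theorem sym2 {f : ℂ → ℂ → ℂ → ℝ≥0∞} (hf : Measurable fun p : ℂ × ℂ × ℂ => f p.1 p.2.1 p.2.2)
    (hs : ∀ a b b', f a b' b = f a b b') (s : ℂ) :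
    ∫⁻ u, ∫⁻ u', f (s - u - u') u u' = ∫⁻ u, ∫⁻ u', f u u' (s - u - u') := by
  have h1 : Measurable fun p : ℂ × ℂ => f (s - p.1 - p.2) p.1 p.2 :=
    hf.comp (by fun_prop : Measurable fun p : ℂ × ℂ => ((s - p.1 - p.2, p.1, p.2) : ℂ × ℂ × ℂ))
  rw [lintegral_lintegral_swap (f := fun u u' => f (s - u - u') u u') h1.aemeasurable]
  have h2 : ∀ u' : ℂ, ∫⁻ u, f (s - u - u') u u' = ∫⁻ t, f t u' (s - t - u') := by
    intro u'
    have h3 := lintegral_sub_left_eq_self (μ := volume)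
      (fun t : ℂ => f t u' (s - t - u')) (s - u')
    rw [← h3]
    refine lintegral_congr fun u => ?_
    rw [hs, show s - u' - u = s - u - u' by ring, show s - (s - u - u') - u' = u by ring]
  simp only [h2]
  have h4 : Measurable fun p : ℂ × ℂ => f p.2 p.1 (s - p.2 - p.1) :=
    hf.comp (by fun_prop : Measurable fun p : ℂ × ℂ => ((p.2, p.1, s - p.2 - p.1) : ℂ × ℂ × ℂ))
  exact lintegral_lintegral_swap (f := fun u' t => f t u' (s - t - u')) h4.aemeasurable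

/-- the product weight -/
noncomputable def W (a b b' c c' d : ℂ) : ℝ :=
  (‖a‖ * ‖b‖ * ‖b'‖ * (‖c‖ * ‖c'‖ * ‖d‖)) ^ (-(5 / 3) : ℝ)

noncomputable def hf (a b b' c c' d : ℂ) : ℝ :=
  Real.log (‖a‖ * ‖b‖ * ‖b'‖ / (‖c‖ * ‖c'‖ * ‖d‖)) / 3

theorem W_nonneg (a b b' c c' d : ℂ) : 0 ≤ W a b b' c c' d := Real.rpow_nonneg (by positivity) _

theorem W_swap (a b b' c c' d : ℂ) : W c c' d a b b' = W a b b' c c' d := by
  unfold W
  rw [mul_comm]

theorem hf_swap (a b b' c c' d : ℂ) : hf c c' d a b b' = -hf a b b' c c' d := by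
  unfold hf
  rw [← inv_div (‖a‖ * ‖b‖ * ‖b'‖), Real.log_inv]
  ring

theorem W_12 (a b b' c c' d : ℂ) : W b a b' c c' d = W a b b' c c' d := by
  unfold W
  rw [mul_comm ‖b‖]

theorem W_23 (a b b' c c' d : ℂ) : W a b' b c c' d = W a b b' c c' d := by
  unfold W
  rw [mul_right_comm ‖a‖]

theorem hf_12 (a b b' c c' d : ℂ) : hf b a b' c c' d = hf a b b' c c' d := by
  unfold hf
  rw [mul_comm ‖b‖]

theorem hf_23 (a b b' c c' d : ℂ) : hf a b' b c c' d = hf a b b' c c' d := by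
  unfold hf
  rw [mul_right_comm ‖a‖]

noncomputable def T1 (ν : ℝ → ℝ) (V : ℂ → ℝ) (a b b' c c' d : ℂ) : ℝ≥0∞ :=
  ENNReal.ofReal (W a b b' c c' d * (V a * V b * V b') ^ 2 * Gh ν (hf a b b' c c' d))

noncomputable def T2 (ν : ℝ → ℝ) (V : ℂ → ℝ) (a b b' c c' d : ℂ) : ℝ≥0∞ :=
  ENNReal.ofReal (W a b b' c c' d * V a ^ 6 * Gh ν (hf a b b' c c' d))

theorem meas_W {α : Type*} [MeasurableSpace α] {a b b' c c' d : α → ℂ} (ha : Measurable a)
    (hb : Measurable b) (hb' : Measurable b') (hc : Measurable c) (hc' : Measurable c')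
    (hd : Measurable d) :
    Measurable fun x => W (a x) (b x) (b' x) (c x) (c' x) (d x) := by
  unfold W
  exact (((ha.norm.mul hb.norm).mul hb'.norm).mul ((hc.norm.mul hc'.norm).mul
    hd.norm)).pow_const _

theorem meas_hf {α : Type*} [MeasurableSpace α] {a b b' c c' d : α → ℂ} (ha : Measurable a)
    (hb : Measurable b) (hb' : Measurable b') (hc : Measurable c) (hc' : Measurable c')
    (hd : Measurable d) :
    Measurable fun x => hf (a x) (b x) (b' x) (c x) (c' x) (d x) := by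
  unfold hf
  exact (Real.measurable_log.comp (((ha.norm.mul hb.norm).mul hb'.norm).div
    ((hc.norm.mul hc'.norm).mul hd.norm))).div_const 3

theorem meas_T1 {α : Type*} [MeasurableSpace α] {ν : ℝ → ℝ} (h : Nu ν) {V : ℂ → ℝ}
    (hV : Measurable V) {a b b' c c' d : α → ℂ} (ha : Measurable a)
    (hb : Measurable b) (hb' : Measurable b') (hc : Measurable c) (hc' : Measurable c')
    (hd : Measurable d) :
    Measurable fun x => T1 ν V (a x) (b x) (b' x) (c x) (c' x) (d x) := by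
  unfold T1
  exact (((meas_W ha hb hb' hc hc' hd).mul ((((hV.comp ha).mul (hV.comp hb)).mul
    (hV.comp hb')).pow_const 2)).mul
    ((Gh_cont h).measurable.comp (meas_hf ha hb hb' hc hc' hd))).ennreal_ofReal

theorem meas_T2 {α : Type*} [MeasurableSpace α] {ν : ℝ → ℝ} (h : Nu ν) {V : ℂ → ℝ}
    (hV : Measurable V) {a b b' c c' d : α → ℂ} (ha : Measurable a)
    (hb : Measurable b) (hb' : Measurable b') (hc : Measurable c) (hc' : Measurable c')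
    (hd : Measurable d) :
    Measurable fun x => T2 ν V (a x) (b x) (b' x) (c x) (c' x) (d x) := by
  unfold T2
  exact (((meas_W ha hb hb' hc hc' hd).mul ((hV.comp ha).pow_const 6)).mul
    ((Gh_cont h).measurable.comp (meas_hf ha hb hb' hc hc' hd))).ennreal_ofReal

/-- the pointwise inequality -/
theorem point {ν : ℝ → ℝ} (h : Nu ν) {V : ℂ → ℝ} {om : ℂ → ℂ} {r R M : ℝ} (hD : Dat V om r R M)
    (a b b' c c' d : ℂ) :
    2 * ENNReal.ofReal (AA' (5 / 3) V a * AA' (5 / 3) V b * AA' (5 / 3) V b' *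
      (AA' (5 / 3) V c * AA' (5 / 3) V c' * AA' (5 / 3) V d) *
      Fh ν (LL (1 / 3) V a + LL (1 / 3) V b + LL (1 / 3) V b' -
        (LL (1 / 3) V c + LL (1 / 3) V c' + LL (1 / 3) V d))) ≤
    T1 ν V a b b' c c' d + T1 ν V c c' d a b b' := by
  obtain ⟨hF, hG, hP⟩ := PTW.t ν h
  have hz : AA' (5 / 3) V a * AA' (5 / 3) V b * AA' (5 / 3) V b' *
      (AA' (5 / 3) V c * AA' (5 / 3) V c' * AA' (5 / 3) V d) = 0 →
      2 * ENNReal.ofReal (AA' (5 / 3) V a * AA' (5 / 3) V b * AA' (5 / 3) V b' *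
      (AA' (5 / 3) V c * AA' (5 / 3) V c' * AA' (5 / 3) V d) *
      Fh ν (LL (1 / 3) V a + LL (1 / 3) V b + LL (1 / 3) V b' -
        (LL (1 / 3) V c + LL (1 / 3) V c' + LL (1 / 3) V d))) ≤
      T1 ν V a b b' c c' d + T1 ν V c c' d a b b' := by
    intro h0
    rw [h0, zero_mul, ENNReal.ofReal_zero, mul_zero]
    exact zero_le
  rcases eq_or_ne (V a) 0 with ha | ha
  · exact hz (by unfold AA'; rw [ha]; ring)
  rcases eq_or_ne (V b) 0 with hb | hb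
  · exact hz (by unfold AA'; rw [hb]; ring)
  rcases eq_or_ne (V b') 0 with hb' | hb'
  · exact hz (by unfold AA'; rw [hb']; ring)
  rcases eq_or_ne (V c) 0 with hc | hc
  · exact hz (by unfold AA'; rw [hc]; ring)
  rcases eq_or_ne (V c') 0 with hc' | hc'
  · exact hz (by unfold AA'; rw [hc']; ring)
  rcases eq_or_ne (V d) 0 with hd | hd
  · exact hz (by unfold AA'; rw [hd]; ring)
  have na := norm_pos_iff.2 (hD.ne ha)
  have nb := norm_pos_iff.2 (hD.ne hb)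
  have nb' := norm_pos_iff.2 (hD.ne hb')
  have nc := norm_pos_iff.2 (hD.ne hc)
  have nc' := norm_pos_iff.2 (hD.ne hc')
  have nd := norm_pos_iff.2 (hD.ne hd)
  have va : 0 < V a := lt_of_le_of_ne (hD.Vb a).1 (Ne.symm ha)
  have vb : 0 < V b := lt_of_le_of_ne (hD.Vb b).1 (Ne.symm hb)
  have vb' : 0 < V b' := lt_of_le_of_ne (hD.Vb b').1 (Ne.symm hb')
  have vc : 0 < V c := lt_of_le_of_ne (hD.Vb c).1 (Ne.symm hc)
  have vc' : 0 < V c' := lt_of_le_of_ne (hD.Vb c').1 (Ne.symm hc')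
  have vd : 0 < V d := lt_of_le_of_ne (hD.Vb d).1 (Ne.symm hd)
  set P := V a * V b * V b' with hPd
  set Q := V c * V c' * V d with hQd
  have hP0 : 0 < P := mul_pos (mul_pos va vb) vb'
  have hQ0 : 0 < Q := mul_pos (mul_pos vc vc') vd
  set X := Real.log P - Real.log Q with hX
  have eA : AA' (5 / 3) V a * AA' (5 / 3) V b * AA' (5 / 3) V b' *
      (AA' (5 / 3) V c * AA' (5 / 3) V c' * AA' (5 / 3) V d) =
      W a b b' c c' d * (P * Q) := by
    unfold AA' W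
    rw [Real.mul_rpow (by positivity) (by positivity), Real.mul_rpow (by positivity) nb'.le,
      Real.mul_rpow na.le nb.le, Real.mul_rpow (by positivity) nd.le,
      Real.mul_rpow nc.le nc'.le, hPd, hQd]
    ring
  have eL : LL (1 / 3) V a + LL (1 / 3) V b + LL (1 / 3) V b' -
      (LL (1 / 3) V c + LL (1 / 3) V c' + LL (1 / 3) V d) = X + hf a b b' c c' d := by
    unfold LL hf
    rw [hX, hPd, hQd, Real.log_mul (by positivity) vb'.ne', Real.log_mul va.ne' vb.ne',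
      Real.log_mul (by positivity) vd.ne', Real.log_mul vc.ne' vc'.ne',
      Real.log_div (by positivity) (by positivity), Real.log_mul (by positivity) nb'.ne',
      Real.log_mul na.ne' nb.ne', Real.log_mul (by positivity) nd.ne', Real.log_mul nc.ne' nc'.ne']
    ring
  have eX : Real.exp X = P / Q := by
    rw [hX, Real.exp_sub, Real.exp_log hP0, Real.exp_log hQ0]
  have eX' : Real.exp (-X) = Q / P := by
    rw [Real.exp_neg, eX, inv_div]
  have h1 := hP X (hf a b b' c c' d)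
  rw [eX, eX'] at h1
  have hW := W_nonneg a b b' c c' d
  have h2 : 2 * (W a b b' c c' d * (P * Q) * Fh ν (X + hf a b b' c c' d)) ≤
      W a b b' c c' d * P ^ 2 * Gh ν (hf a b b' c c' d) +
        W a b b' c c' d * Q ^ 2 * Gh ν (-hf a b b' c c' d) := by
    have h3 := mul_le_mul_of_nonneg_left h1 (mul_nonneg hW (mul_pos hP0 hQ0).le)
    have e3 : W a b b' c c' d * (P * Q) *
        (Gh ν (hf a b b' c c' d) * (P / Q) + Gh ν (-hf a b b' c c' d) * (Q / P)) =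
        W a b b' c c' d * P ^ 2 * Gh ν (hf a b b' c c' d) +
          W a b b' c c' d * Q ^ 2 * Gh ν (-hf a b b' c c' d) := by
      field_simp
    linarith
  unfold T1
  rw [W_swap a b b' c c' d, hf_swap a b b' c c' d, ← hPd, ← hQd, eA, eL, ← ENNReal.ofReal_add
    (mul_nonneg (mul_nonneg hW (by positivity)) (hG _))
    (mul_nonneg (mul_nonneg hW (by positivity)) (hG _))]
  have e4 : (2 : ℝ≥0∞) = ENNReal.ofReal 2 := by norm_num
  rw [e4, ← ENNReal.ofReal_mul (by norm_num)]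
  exact ENNReal.ofReal_le_ofReal h2

theorem amgm (x y z : ℝ) :
    3 * (x * y * z) ^ 2 ≤ x ^ 6 + y ^ 6 + z ^ 6 := by
  have h1 : ∀ a b c : ℝ, 0 ≤ a → 0 ≤ b → 0 ≤ c → 3 * (a * b * c) ≤ a ^ 3 + b ^ 3 + c ^ 3 := by
    intro a b c ha hb hc
    nlinarith [mul_nonneg (add_nonneg (add_nonneg ha hb) hc) (sq_nonneg (a - b)),
      mul_nonneg (add_nonneg (add_nonneg ha hb) hc) (sq_nonneg (b - c)),
      mul_nonneg (add_nonneg (add_nonneg ha hb) hc) (sq_nonneg (a - c))]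
  have h2 := h1 (x ^ 2) (y ^ 2) (z ^ 2) (sq_nonneg _) (sq_nonneg _) (sq_nonneg _)
  calc 3 * (x * y * z) ^ 2 = 3 * (x ^ 2 * y ^ 2 * z ^ 2) := by ring
    _ ≤ (x ^ 2) ^ 3 + (y ^ 2) ^ 3 + (z ^ 2) ^ 3 := h2
    _ = _ := by ring

theorem T1_le {ν : ℝ → ℝ} (h : Nu ν) {V : ℂ → ℝ} (_hV : ∀ u, 0 ≤ V u) (a b b' c c' d : ℂ) :
    3 * T1 ν V a b b' c c' d ≤
      T2 ν V a b b' c c' d + T2 ν V b a b' c c' d + T2 ν V b' a b c c' d := by
  obtain ⟨hF, hG, hP⟩ := PTW.t ν h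
  have e1 : T2 ν V b a b' c c' d =
      ENNReal.ofReal (W a b b' c c' d * V b ^ 6 * Gh ν (hf a b b' c c' d)) := by
    unfold T2
    rw [W_12 a b, hf_12 a b]
  have e2 : T2 ν V b' a b c c' d =
      ENNReal.ofReal (W a b b' c c' d * V b' ^ 6 * Gh ν (hf a b b' c c' d)) := by
    unfold T2
    rw [W_12 a b', hf_12 a b', W_23 a b b', hf_23 a b b']
  rw [e1, e2]
  unfold T1 T2
  rw [← ENNReal.ofReal_add
    (mul_nonneg (mul_nonneg (W_nonneg _ _ _ _ _ _) (by positivity)) (hG _))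
    (mul_nonneg (mul_nonneg (W_nonneg _ _ _ _ _ _) (by positivity)) (hG _)),
    ← ENNReal.ofReal_add (add_nonneg
    (mul_nonneg (mul_nonneg (W_nonneg _ _ _ _ _ _) (by positivity)) (hG _))
    (mul_nonneg (mul_nonneg (W_nonneg _ _ _ _ _ _) (by positivity)) (hG _)))
    (mul_nonneg (mul_nonneg (W_nonneg _ _ _ _ _ _) (by positivity)) (hG _))]
  have e4 : (3 : ℝ≥0∞) = ENNReal.ofReal 3 := by norm_num
  rw [e4, ← ENNReal.ofReal_mul (by norm_num)]
  apply ENNReal.ofReal_le_ofReal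
  have h1 := amgm (V a) (V b) (V b')
  have h2 := mul_le_mul_of_nonneg_left h1
    (mul_nonneg (W_nonneg a b b' c c' d) (hG (hf a b b' c c' d)))
  linarith

/-- the integral of `T2` -/
theorem int_T2 (hC : R_CM3) {ν : ℝ → ℝ} (h : Nu ν) {V : ℂ → ℝ} {om : ℂ → ℂ} {r R M : ℝ}
    (hD : Dat V om r R M) :
    ∫⁻ s : ℂ, ∫⁻ u : ℂ, ∫⁻ u' : ℂ, ∫⁻ v : ℂ, ∫⁻ v' : ℂ,
        T2 ν V u u' (s - u - u') v v' (s - v - v') =
      ENNReal.ofReal (Real.pi ^ 4 * ∫ y : ℝ, ν y * ‖gm (1 / 3 + Complex.I * y / 3)‖ ^ 6) *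
        ∫⁻ u : ℂ, ENNReal.ofReal (V u ^ 6 / ‖u‖ ^ 2) := by
  have hV := hD.Vm
  have hm0 : Measurable fun p : (ℂ × ℂ) × ℂ => ∫⁻ v : ℂ, ∫⁻ v' : ℂ,
      T2 ν V p.1.2 p.2 (p.1.1 - p.1.2 - p.2) v v' (p.1.1 - v - v') :=
    (meas_T2 (α := (((ℂ × ℂ) × ℂ) × ℂ) × ℂ) h hV (a := fun q => q.1.1.1.2)
      (b := fun q => q.1.1.2) (b' := fun q => q.1.1.1.1 - q.1.1.1.2 - q.1.1.2)
      (c := fun q => q.1.2) (c' := fun q => q.2) (d := fun q => q.1.1.1.1 - q.1.2 - q.2)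
      (by fun_prop) (by fun_prop) (by fun_prop) (by fun_prop) (by fun_prop)
      (by fun_prop)).lintegral_prod_right'.lintegral_prod_right'
  have hm : Measurable fun p : ℂ × ℂ => ∫⁻ u' : ℂ, ∫⁻ v : ℂ, ∫⁻ v' : ℂ,
      T2 ν V p.2 u' (p.1 - p.2 - u') v v' (p.1 - v - v') := hm0.lintegral_prod_right'
  rw [lintegral_lintegral_swap hm.aemeasurable]
  rw [← lintegral_const_mul _ (by fun_prop : Measurable fun u : ℂ =>
    ENNReal.ofReal (V u ^ 6 / ‖u‖ ^ 2))]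
  refine lintegral_congr fun u => ?_
  have hm1 : Measurable fun p : ℂ × ℂ => ∫⁻ v : ℂ, ∫⁻ v' : ℂ,
      T2 ν V u p.2 (p.1 - u - p.2) v v' (p.1 - v - v') :=
    (meas_T2 (α := ((ℂ × ℂ) × ℂ) × ℂ) h hV (a := fun _ => u)
      (b := fun q => q.1.1.2) (b' := fun q => q.1.1.1 - u - q.1.1.2)
      (c := fun q => q.1.2) (c' := fun q => q.2) (d := fun q => q.1.1.1 - q.1.2 - q.2)
      (by fun_prop) (by fun_prop) (by fun_prop) (by fun_prop) (by fun_prop)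
      (by fun_prop)).lintegral_prod_right'.lintegral_prod_right'
  rw [lintegral_lintegral_swap hm1.aemeasurable]
  have hsh : ∀ b : ℂ, ∫⁻ s : ℂ, ∫⁻ v : ℂ, ∫⁻ v' : ℂ,
      T2 ν V u b (s - u - b) v v' (s - v - v') = ∫⁻ b' : ℂ, ∫⁻ v : ℂ, ∫⁻ v' : ℂ,
      T2 ν V u b b' v v' (u + b + b' - v - v') := by
    intro b
    rw [← lintegral_add_left_eq_self (fun s => ∫⁻ v : ℂ, ∫⁻ v' : ℂ,
      T2 ν V u b (s - u - b) v v' (s - v - v')) (u + b)]
    refine lintegral_congr fun b' => ?_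
    rw [show u + b + b' - u - b = b' by ring]
  simp only [hsh]
  rcases eq_or_ne u 0 with rfl | hu
  · have h0 : V 0 = 0 := by
      by_contra h1
      exact hD.ne h1 rfl
    simp [T2, h0]
  · have hu0 := norm_pos_iff.2 hu
    have e1 : ∀ b b' v v' : ℂ, T2 ν V u b b' v v' (u + b + b' - v - v') =
        ENNReal.ofReal (V u ^ 6 * ‖u‖ ^ (-(5 / 3) : ℝ)) *
        ENNReal.ofReal ((‖b‖ * ‖b'‖ * (‖v‖ * ‖v'‖ * ‖u + b + b' - v - v'‖)) ^ (-(5 / 3) : ℝ) *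
          Gh ν (Real.log (‖u‖ * ‖b‖ * ‖b'‖ / (‖v‖ * ‖v'‖ * ‖u + b + b' - v - v'‖)) / 3)) := by
      intro b b' v v'
      rw [← ENNReal.ofReal_mul (mul_nonneg (by positivity) (Real.rpow_nonneg hu0.le _))]
      unfold T2 W hf
      congr 1
      have e2 : ‖u‖ * ‖b‖ * ‖b'‖ * (‖v‖ * ‖v'‖ * ‖u + b + b' - v - v'‖) =
          ‖u‖ * (‖b‖ * ‖b'‖ * (‖v‖ * ‖v'‖ * ‖u + b + b' - v - v'‖)) := by ring
      rw [e2, Real.mul_rpow hu0.le (by positivity)]
      ring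
    simp only [e1]
    set CU := ENNReal.ofReal (V u ^ 6 * ‖u‖ ^ (-(5 / 3) : ℝ)) with hCU
    have hCt : CU ≠ ∞ := ENNReal.ofReal_ne_top
    simp only [lintegral_const_mul' _ _ hCt]
    rw [hC ν h u hu, hCU]
    have hK : 0 ≤ ∫ y : ℝ, ν y * ‖gm (1 / 3 + Complex.I * y / 3)‖ ^ 6 :=
      integral_nonneg fun y => mul_nonneg (h.2.1 y) (by positivity)
    rw [← ENNReal.ofReal_mul (mul_nonneg (by positivity) (Real.rpow_nonneg hu0.le _)),
      ← ENNReal.ofReal_mul (mul_nonneg (by positivity) hK)]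
    congr 1
    have e3 : ‖u‖ ^ (-(5 / 3) : ℝ) * ‖u‖ ^ (-(1 / 3) : ℝ) = (‖u‖ ^ 2)⁻¹ := by
      rw [← Real.rpow_add hu0, ← Real.rpow_natCast, ← Real.rpow_neg hu0.le]
      norm_num
    rw [div_eq_mul_inv (V u ^ 6)]
    linear_combination (V u ^ 6 *
      (Real.pi ^ 4 * ∫ y : ℝ, ν y * ‖gm (1 / 3 + Complex.I * y / 3)‖ ^ 6)) * e3

/-- the kernel -/
noncomputable def KK (ν : ℝ → ℝ) (V : ℂ → ℝ) (a b b' c c' d : ℂ) : ℝ≥0∞ :=
  ENNReal.ofReal (AA' (5 / 3) V a * AA' (5 / 3) V b * AA' (5 / 3) V b' *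
      (AA' (5 / 3) V c * AA' (5 / 3) V c' * AA' (5 / 3) V d) *
      Fh ν (LL (1 / 3) V a + LL (1 / 3) V b + LL (1 / 3) V b' -
        (LL (1 / 3) V c + LL (1 / 3) V c' + LL (1 / 3) V d)))

theorem meas_KK {α : Type*} [MeasurableSpace α] {ν : ℝ → ℝ} (h : Nu ν) {V : ℂ → ℝ} {om : ℂ → ℂ}
    {r R M : ℝ} (hD : Dat V om r R M) {a b b' c c' d : α → ℂ} (ha : Measurable a)
    (hb : Measurable b) (hb' : Measurable b') (hc : Measurable c) (hc' : Measurable c')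
    (hd : Measurable d) :
    Measurable fun x => KK ν V (a x) (b x) (b' x) (c x) (c' x) (d x) := by
  unfold KK
  have hA := hD.A_meas (5 / 3)
  have hL := hD.L_meas (1 / 3)
  exact (((((hA.comp ha).mul (hA.comp hb)).mul (hA.comp hb')).mul
    (((hA.comp hc).mul (hA.comp hc')).mul (hA.comp hd))).mul
    ((Fh_cont h).measurable.comp ((((hL.comp ha).add (hL.comp hb)).add (hL.comp hb')).sub
      (((hL.comp hc).add (hL.comp hc')).add (hL.comp hd))))).ennreal_ofReal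

theorem add3 {α : Type*} [MeasurableSpace α] {μ : Measure α} {f g k : α → ℝ≥0∞}
    (hf : Measurable f) (hg : Measurable g) :
    ∫⁻ x, (f x + g x + k x) ∂μ = ∫⁻ x, f x ∂μ + ∫⁻ x, g x ∂μ + ∫⁻ x, k x ∂μ := by
  rw [lintegral_add_left (f := fun x => f x + g x) (hf.add hg), lintegral_add_left hf]

theorem unf {f : ℂ → ℂ → ℂ → ℂ → ℝ≥0∞}
    (hf : Measurable fun z : (ℂ × ℂ) × (ℂ × ℂ) => f z.1.1 z.1.2 z.2.1 z.2.2) :
    ∫⁻ u : ℂ, ∫⁻ u' : ℂ, ∫⁻ v : ℂ, ∫⁻ v' : ℂ, f u u' v v' =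
      ∫⁻ z : (ℂ × ℂ) × (ℂ × ℂ), f z.1.1 z.1.2 z.2.1 z.2.2
        ∂(((volume : Measure ℂ).prod volume).prod ((volume : Measure ℂ).prod volume)) := by
  rw [lintegral_prod _ hf.aemeasurable]
  have hf2 : Measurable fun x : ℂ × ℂ => ∫⁻ y : ℂ × ℂ, f x.1 x.2 y.1 y.2
      ∂((volume : Measure ℂ).prod volume) := hf.lintegral_prod_right'
  rw [lintegral_prod _ hf2.aemeasurable]
  refine lintegral_congr fun u => lintegral_congr fun u' => ?_
  have hf3 : Measurable fun y : ℂ × ℂ => f u u' y.1 y.2 :=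
    hf.comp (measurable_prodMk_left (x := (u, u')))
  exact (lintegral_prod _ hf3.aemeasurable).symm

theorem swp {f : ℂ → ℂ → ℂ → ℂ → ℝ≥0∞}
    (hf : Measurable fun z : (ℂ × ℂ) × (ℂ × ℂ) => f z.1.1 z.1.2 z.2.1 z.2.2) :
    ∫⁻ u : ℂ, ∫⁻ u' : ℂ, ∫⁻ v : ℂ, ∫⁻ v' : ℂ, f v v' u u' =
      ∫⁻ u : ℂ, ∫⁻ u' : ℂ, ∫⁻ v : ℂ, ∫⁻ v' : ℂ, f u u' v v' := by
  have hf2 : Measurable fun z : (ℂ × ℂ) × (ℂ × ℂ) => f z.2.1 z.2.2 z.1.1 z.1.2 :=
    hf.comp measurable_swap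
  rw [unf hf, unf (f := fun u u' v v' => f v v' u u') hf2]
  rw [lintegral_prod_symm _ hf.aemeasurable, lintegral_prod _ hf2.aemeasurable]

theorem J_le {ν : ℝ → ℝ} (h : Nu ν) {V : ℂ → ℝ} {om : ℂ → ℂ} {r R M : ℝ}
    (hD : Dat V om r R M) (s : ℂ) :
    ∫⁻ u : ℂ, ∫⁻ u' : ℂ, ∫⁻ v : ℂ, ∫⁻ v' : ℂ, KK ν V u u' (s - u - u') v v' (s - v - v') ≤
      ∫⁻ u : ℂ, ∫⁻ u' : ℂ, ∫⁻ v : ℂ, ∫⁻ v' : ℂ, T1 ν V u u' (s - u - u') v v' (s - v - v') := by
  have hVm := hD.Vm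
  have two_ne : (2 : ℝ≥0∞) ≠ 0 := by norm_num
  have two_top : (2 : ℝ≥0∞) ≠ ∞ := by norm_num
  set f : ℂ → ℂ → ℂ → ℂ → ℝ≥0∞ := fun u u' v v' =>
    T1 ν V u u' (s - u - u') v v' (s - v - v') with hf
  have tm : Measurable fun z : (ℂ × ℂ) × (ℂ × ℂ) => f z.1.1 z.1.2 z.2.1 z.2.2 :=
    meas_T1 h hVm (by fun_prop) (by fun_prop) (by fun_prop) (by fun_prop) (by fun_prop)
      (by fun_prop)
  have tm' : Measurable fun z : (ℂ × ℂ) × (ℂ × ℂ) => f z.2.1 z.2.2 z.1.1 z.1.2 :=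
    meas_T1 h hVm (by fun_prop) (by fun_prop) (by fun_prop) (by fun_prop) (by fun_prop)
      (by fun_prop)
  set g : ℂ → ℂ → ℂ → ℂ → ℝ≥0∞ := fun u u' v v' =>
    KK ν V u u' (s - u - u') v v' (s - v - v') with hg
  have km : Measurable fun z : (ℂ × ℂ) × (ℂ × ℂ) => g z.1.1 z.1.2 z.2.1 z.2.2 :=
    meas_KK h hD (by fun_prop) (by fun_prop) (by fun_prop) (by fun_prop) (by fun_prop)
      (by fun_prop)
  have hpt : ∀ u u' v v', 2 * g u u' v v' ≤ f u u' v v' + f v v' u u' := fun u u' v v' =>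
    point h hD u u' (s - u - u') v v' (s - v - v')
  show ∫⁻ u : ℂ, ∫⁻ u' : ℂ, ∫⁻ v : ℂ, ∫⁻ v' : ℂ, g u u' v v' ≤
    ∫⁻ u : ℂ, ∫⁻ u' : ℂ, ∫⁻ v : ℂ, ∫⁻ v' : ℂ, f u u' v v'
  have hsw := swp tm
  rw [unf (f := fun u u' v v' => f v v' u u') tm', unf tm] at hsw
  rw [unf km, unf tm]
  refine (ENNReal.mul_le_mul_iff_right two_ne two_top).1 ?_
  rw [← lintegral_const_mul _ km]
  calc _ ≤ ∫⁻ z : (ℂ × ℂ) × (ℂ × ℂ), (f z.1.1 z.1.2 z.2.1 z.2.2 + f z.2.1 z.2.2 z.1.1 z.1.2)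
        ∂(((volume : Measure ℂ).prod volume).prod ((volume : Measure ℂ).prod volume)) :=
        lintegral_mono fun z => hpt z.1.1 z.1.2 z.2.1 z.2.2
    _ = _ := by rw [lintegral_add_left tm, hsw, two_mul]

theorem sym3 {f g : ℂ → ℂ → ℂ → ℝ≥0∞} (hfm : Measurable fun p : ℂ × ℂ × ℂ => f p.1 p.2.1 p.2.2)
    (hfs : ∀ a b b', f a b' b = f a b b')
    (hgf : ∀ a b b', 3 * g a b b' ≤ f a b b' + f b a b' + f b' a b) (s : ℂ) :
    3 * ∫⁻ u : ℂ, ∫⁻ u' : ℂ, g u u' (s - u - u') ≤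
      3 * ∫⁻ u : ℂ, ∫⁻ u' : ℂ, f u u' (s - u - u') := by
  have three_top : (3 : ℝ≥0∞) ≠ ∞ := by norm_num
  have p1 : Measurable fun p : ℂ × ℂ => f p.1 p.2 (s - p.1 - p.2) :=
    hfm.comp (by fun_prop : Measurable fun p : ℂ × ℂ =>
      ((p.1, p.2, s - p.1 - p.2) : ℂ × ℂ × ℂ))
  have p2 : Measurable fun p : ℂ × ℂ => f p.2 p.1 (s - p.1 - p.2) :=
    hfm.comp (by fun_prop : Measurable fun p : ℂ × ℂ =>
      ((p.2, p.1, s - p.1 - p.2) : ℂ × ℂ × ℂ))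
  have e6 : ∀ u : ℂ, ∫⁻ u' : ℂ, (f u u' (s - u - u') + f u' u (s - u - u') +
      f (s - u - u') u u') = (∫⁻ u' : ℂ, f u u' (s - u - u')) +
      (∫⁻ u' : ℂ, f u' u (s - u - u')) + ∫⁻ u' : ℂ, f (s - u - u') u u' := by
    intro u
    have q1 : Measurable fun u' : ℂ => f u u' (s - u - u') :=
      p1.comp (measurable_prodMk_left (x := u))
    have q2 : Measurable fun u' : ℂ => f u' u (s - u - u') :=
      p2.comp (measurable_prodMk_left (x := u))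
    exact add3 q1 q2
  have r1 : Measurable fun u : ℂ => ∫⁻ u' : ℂ, f u u' (s - u - u') :=
    p1.lintegral_prod_right'
  have r2 : Measurable fun u : ℂ => ∫⁻ u' : ℂ, f u' u (s - u - u') :=
    p2.lintegral_prod_right'
  calc 3 * ∫⁻ u : ℂ, ∫⁻ u' : ℂ, g u u' (s - u - u') ≤ ∫⁻ u : ℂ, ∫⁻ u' : ℂ,
        (f u u' (s - u - u') + f u' u (s - u - u') + f (s - u - u') u u') := by
        rw [← lintegral_const_mul' _ _ three_top]
        refine lintegral_mono fun u => ?_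
        rw [← lintegral_const_mul' _ _ three_top]
        exact lintegral_mono fun u' => hgf u u' (s - u - u')
    _ = _ := by
        simp only [e6]
        rw [add3 r1 r2, sym1 hfm s, sym2 hfm hfs s]
        ring

theorem J1_le {ν : ℝ → ℝ} (h : Nu ν) {V : ℂ → ℝ} (hVm : Measurable V) (hV : ∀ u, 0 ≤ V u)
    (s : ℂ) :
    ∫⁻ u : ℂ, ∫⁻ u' : ℂ, ∫⁻ v : ℂ, ∫⁻ v' : ℂ, T1 ν V u u' (s - u - u') v v' (s - v - v') ≤
      ∫⁻ u : ℂ, ∫⁻ u' : ℂ, ∫⁻ v : ℂ, ∫⁻ v' : ℂ, T2 ν V u u' (s - u - u') v v' (s - v - v') := by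
  have three_ne : (3 : ℝ≥0∞) ≠ 0 := by norm_num
  have three_top : (3 : ℝ≥0∞) ≠ ∞ := by norm_num
  refine (ENNReal.mul_le_mul_iff_right three_ne three_top).1 ?_
  set f : ℂ → ℂ → ℂ → ℝ≥0∞ := fun a b b' => ∫⁻ v : ℂ, ∫⁻ v' : ℂ,
    T2 ν V a b b' v v' (s - v - v') with hf0
  have hfm : Measurable fun p : ℂ × ℂ × ℂ => f p.1 p.2.1 p.2.2 :=
    (meas_T2 (α := ((ℂ × ℂ × ℂ) × ℂ) × ℂ) h hVm (a := fun q => q.1.1.1)
      (b := fun q => q.1.1.2.1) (b' := fun q => q.1.1.2.2)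
      (c := fun q => q.1.2) (c' := fun q => q.2) (d := fun q => s - q.1.2 - q.2)
      (by fun_prop) (by fun_prop) (by fun_prop) (by fun_prop) (by fun_prop)
      (by fun_prop)).lintegral_prod_right'.lintegral_prod_right'
  have hfs : ∀ a b b', f a b' b = f a b b' := by
    intro a b b'
    simp only [hf0, T2]
    simp only [W_23 a b b', hf_23 a b b']
  set g : ℂ → ℂ → ℂ → ℝ≥0∞ := fun a b b' => ∫⁻ v : ℂ, ∫⁻ v' : ℂ,
    T1 ν V a b b' v v' (s - v - v') with hg0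
  have hgf : ∀ a b b', 3 * g a b b' ≤ f a b b' + f b a b' + f b' a b := by
    intro a b b'
    have ma : ∀ (a b b' v : ℂ), Measurable fun v' : ℂ => T2 ν V a b b' v v' (s - v - v') :=
      fun a b b' v => meas_T2 h hVm (by fun_prop) (by fun_prop) (by fun_prop) (by fun_prop)
        (by fun_prop) (by fun_prop)
    have mb : ∀ (a b b' : ℂ), Measurable fun v : ℂ =>
        ∫⁻ v' : ℂ, T2 ν V a b b' v v' (s - v - v') := fun a b b' =>
      (meas_T2 (α := ℂ × ℂ) h hVm (a := fun _ => a) (b := fun _ => b) (b' := fun _ => b')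
        (c := fun q => q.1) (c' := fun q => q.2) (d := fun q => s - q.1 - q.2)
        (by fun_prop) (by fun_prop) (by fun_prop) (by fun_prop) (by fun_prop)
        (by fun_prop)).lintegral_prod_right'
    have e5 : ∀ v : ℂ, ∫⁻ v' : ℂ,
        (T2 ν V a b b' v v' (s - v - v') +
        T2 ν V b a b' v v' (s - v - v') +
        T2 ν V b' a b v v' (s - v - v')) =
        (∫⁻ v' : ℂ, T2 ν V a b b' v v' (s - v - v')) +
        (∫⁻ v' : ℂ, T2 ν V b a b' v v' (s - v - v')) +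
        ∫⁻ v' : ℂ, T2 ν V b' a b v v' (s - v - v') := by
      intro v
      exact add3 (ma _ _ _ _) (ma _ _ _ _)
    calc 3 * g a b b' ≤ ∫⁻ v : ℂ, ∫⁻ v' : ℂ,
          (T2 ν V a b b' v v' (s - v - v') +
          T2 ν V b a b' v v' (s - v - v') +
          T2 ν V b' a b v v' (s - v - v')) := by
          simp only [hg0]
          rw [← lintegral_const_mul' _ _ three_top]
          refine lintegral_mono fun v => ?_
          rw [← lintegral_const_mul' _ _ three_top]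
          exact lintegral_mono fun v' => T1_le h hV a b b' v v' (s - v - v')
      _ = _ := by
          simp only [e5]
          exact add3 (mb _ _ _) (mb _ _ _)
  show 3 * ∫⁻ u : ℂ, ∫⁻ u' : ℂ, g u u' (s - u - u') ≤ 3 * ∫⁻ u : ℂ, ∫⁻ u' : ℂ, f u u' (s - u - u')
  exact sym3 hfm hfs hgf s

theorem t (hR : R_RZC) : R_GN3 := by
  intro ν h V om r R M hVm hom hr hVb hob hsp
  have hC := CM3.t hR
  have hD : Dat V om r R M := ⟨hVm, hom, hr, hVb, hob, hsp⟩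
  have hFnn := (PTW.t ν h).1
  set G : ℂ → ℂ := fun u => om u * (AA' (5 / 3) V u : ℂ) with hGd
  have hG : Nice G := hD.G_nice (by norm_num)
  have hLm := hD.L_meas (1 / 3)
  have hAm := hD.A_meas (5 / 3)
  have hGm : Measurable G := hG.1
  set μ : Measure (ℂ × ℂ) := (volume : Measure ℂ).prod volume with hμ
  set B : ℂ → ℂ × ℂ → ℂ := fun s z => G z.1 * G z.2 * G (s - z.1 - z.2) with hB
  set Λ : ℂ → ℂ × ℂ → ℝ := fun s z =>
    LL (1 / 3) V z.1 + LL (1 / 3) V z.2 + LL (1 / 3) V (s - z.1 - z.2) with hΛd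
  have hBi : ∀ s, Integrable (B s) μ := by
    intro s
    obtain ⟨N, hN⟩ := hG.2.1
    have h1 : Integrable (fun z : ℂ × ℂ => ‖G z.1 * G z.2‖ * N) μ :=
      (((FOUR.nice_int hG).mul_prod (FOUR.nice_int hG)).norm).mul_const N
    refine h1.mono' ?_ (Eventually.of_forall fun z => ?_)
    · exact (by fun_prop : Measurable (B s)).aestronglyMeasurable
    · show ‖G z.1 * G z.2 * G (s - z.1 - z.2)‖ ≤ _
      rw [norm_mul (G z.1 * G z.2)]
      exact mul_le_mul_of_nonneg_left (hN _) (norm_nonneg _)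
  have hΛm : ∀ s, Measurable (Λ s) := fun s => by
    simp only [hΛd]
    fun_prop
  -- the square of the convolution
  set S : ℝ → ℂ → ℂ := fun y s => ∫ z, B s z *
    Complex.exp (-(Complex.I * y * ((Λ s z : ℝ) : ℂ))) ∂μ with hS
  have hBei : ∀ (y : ℝ) (s : ℂ), Integrable
      (fun z => B s z * Complex.exp (-(Complex.I * y * ((Λ s z : ℝ) : ℂ)))) μ := by
    intro y s
    refine (hBi s).norm.mono' ?_ (Eventually.of_forall fun z => ?_)
    · have := hΛm s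
      exact (hBi s).aestronglyMeasurable.mul (by fun_prop : Measurable fun z =>
        Complex.exp (-(Complex.I * y * ((Λ s z : ℝ) : ℂ)))).aestronglyMeasurable
    · rw [norm_mul, norm_exp_form, mul_one]
  have e1 : ∀ y : ℝ, ∫⁻ x : ℂ, ‖∫ u : ℂ, (om u *
      ((((‖u‖ : ℝ) : ℂ) ^ (-(5 / 3) - Complex.I * y / 3)) * (V u : ℂ) ^ (1 - Complex.I * y))) *
      ex x u‖ₑ ^ 6 = ENNReal.ofReal ((2 * Real.pi) ^ 2) * ∫⁻ s, ‖S y s‖ₑ ^ 2 := by
    intro y
    have h1 := four_eq 2 (hD.F_nice (c := 5 / 3) (k := 1 / 3) (by norm_num) y)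
    have h4 : 2 * (2 + 1) = 6 := rfl
    rw [h4] at h1
    have h2 : ∀ u, om u * ((((‖u‖ : ℝ) : ℂ) ^ (-(5 / 3) - Complex.I * y / 3)) *
        (V u : ℂ) ^ (1 - Complex.I * y)) =
        om u * (AA' (5 / 3) V u : ℂ) * Complex.exp (-(Complex.I * y * LL (1 / 3) V u)) := by
      intro u
      refine hD.form y u ?_
      push_cast
      ring
    simp only [h2]
    rw [h1]
    congr 1
    refine lintegral_congr fun s => ?_
    congr 2
    show ∫ u, (om u * (AA' (5 / 3) V u : ℂ) * Complex.exp (-(Complex.I * y * LL (1 / 3) V u))) *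
      (∫ u', (om u' * (AA' (5 / 3) V u' : ℂ) *
        Complex.exp (-(Complex.I * y * LL (1 / 3) V u'))) *
      (om (s - u - u') * (AA' (5 / 3) V (s - u - u') : ℂ) *
        Complex.exp (-(Complex.I * y * LL (1 / 3) V (s - u - u'))))) = _
    rw [hS]
    simp only
    rw [integral_prod _ (hBei y s)]
    refine integral_congr_ae (Eventually.of_forall fun u => ?_)
    simp only
    rw [← integral_const_mul]
    refine integral_congr_ae (Eventually.of_forall fun u' => ?_)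
    simp only [hGd, hB, hΛd]
    have e2 : Complex.exp (-(Complex.I * y *
        ((LL (1 / 3) V u + LL (1 / 3) V u' + LL (1 / 3) V (s - u - u') : ℝ) : ℂ))) =
        Complex.exp (-(Complex.I * y * LL (1 / 3) V u)) *
        Complex.exp (-(Complex.I * y * LL (1 / 3) V u')) *
        Complex.exp (-(Complex.I * y * LL (1 / 3) V (s - u - u'))) := by
      rw [← Complex.exp_add, ← Complex.exp_add]
      congr 1
      push_cast
      ring
    rw [e2]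
    ring
  simp only [e1]
  have hSm : Measurable fun p : ℝ × ℂ => S p.1 p.2 := by
    have h1 : Measurable fun q : (ℝ × ℂ) × (ℂ × ℂ) => B q.1.2 q.2 *
        Complex.exp (-(Complex.I * q.1.1 * ((Λ q.1.2 q.2 : ℝ) : ℂ))) := by
      simp only [hB, hΛd]
      fun_prop
    exact h1.stronglyMeasurable.integral_prod_right'.measurable
  have e2 : ∫⁻ y : ℝ, ENNReal.ofReal (ν y) *
      (ENNReal.ofReal ((2 * Real.pi) ^ 2) * ∫⁻ s, ‖S y s‖ₑ ^ 2) =
      ENNReal.ofReal ((2 * Real.pi) ^ 2) *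
        ∫⁻ s, ∫⁻ y : ℝ, ENNReal.ofReal (ν y) * ‖S y s‖ₑ ^ 2 := by
    have hνm := h.1.measurable
    have hj : Measurable fun p : ℝ × ℂ => ENNReal.ofReal (ν p.1) * ‖S p.1 p.2‖ₑ ^ 2 :=
      (hνm.comp measurable_fst).ennreal_ofReal.mul (hSm.enorm.pow_const 2)
    rw [← lintegral_lintegral_swap hj.aemeasurable, ← lintegral_const_mul _
      hj.lintegral_prod_right']
    refine lintegral_congr fun y => ?_
    have hj2 : Measurable fun s : ℂ => ‖S y s‖ₑ ^ 2 :=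
      (hSm.comp measurable_prodMk_left).enorm.pow_const 2
    show _ = _ * ∫⁻ s : ℂ, ENNReal.ofReal (ν y) * ‖S y s‖ₑ ^ 2
    rw [lintegral_const_mul _ hj2]
    ring
  rw [e2]
  have e3 : ∀ s : ℂ, ∫⁻ y : ℝ, ENNReal.ofReal (ν y) * ‖S y s‖ₑ ^ 2 ≤
      ∫⁻ u : ℂ, ∫⁻ u' : ℂ, ∫⁻ v : ℂ, ∫⁻ v' : ℂ, KK ν V u u' (s - u - u') v v' (s - v - v') := by
    intro s
    refine (key h (hBi s) (hΛm s)).trans ?_
    set g : ℂ → ℂ → ℂ → ℂ → ℝ≥0∞ := fun u u' v v' =>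
      KK ν V u u' (s - u - u') v v' (s - v - v') with hg
    have km : Measurable fun z : (ℂ × ℂ) × (ℂ × ℂ) => g z.1.1 z.1.2 z.2.1 z.2.2 :=
      meas_KK h hD (by fun_prop) (by fun_prop) (by fun_prop) (by fun_prop) (by fun_prop)
        (by fun_prop)
    show _ ≤ ∫⁻ u : ℂ, ∫⁻ u' : ℂ, ∫⁻ v : ℂ, ∫⁻ v' : ℂ, g u u' v v'
    rw [unf km]
    refine lintegral_mono fun z => ENNReal.ofReal_le_ofReal ?_
    have hn : ∀ w, ‖G w‖ ≤ AA' (5 / 3) V w := by
      intro w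
      simp only [hGd]
      rw [norm_mul, Complex.norm_real, Real.norm_of_nonneg (hD.A_nonneg _ w)]
      exact mul_le_of_le_one_left (hD.A_nonneg _ w) (hob w)
    have h0 := hD.A_nonneg (5 / 3)
    have hB' : ∀ z : ℂ × ℂ, ‖B s z‖ ≤
        AA' (5 / 3) V z.1 * AA' (5 / 3) V z.2 * AA' (5 / 3) V (s - z.1 - z.2) := by
      intro z
      show ‖G z.1 * G z.2 * G (s - z.1 - z.2)‖ ≤ _
      rw [norm_mul (G z.1 * G z.2), norm_mul (G z.1)]
      exact mul_le_mul (mul_le_mul (hn _) (hn _) (norm_nonneg _) (h0 _)) (hn _) (norm_nonneg _)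
        (mul_nonneg (h0 _) (h0 _))
    refine mul_le_mul_of_nonneg_right ?_ (hFnn _)
    exact mul_le_mul (hB' _) (hB' _) (norm_nonneg _)
      (mul_nonneg (mul_nonneg (h0 _) (h0 _)) (h0 _))
  have hfin : ∫⁻ s, ∫⁻ y : ℝ, ENNReal.ofReal (ν y) * ‖S y s‖ₑ ^ 2 ≤
      ∫⁻ s : ℂ, ∫⁻ u : ℂ, ∫⁻ u' : ℂ, ∫⁻ v : ℂ, ∫⁻ v' : ℂ,
        T2 ν V u u' (s - u - u') v v' (s - v - v') :=
    lintegral_mono fun s => ((e3 s).trans (J_le h hD s)).trans (J1_le h hVm (fun u => (hVb u).1) s)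
  refine (mul_le_mul_right hfin _).trans (le_of_eq ?_)
  rw [int_T2 hC h hD, ← mul_assoc, ← ENNReal.ofReal_mul (by positivity)]
  congr 2
  ring

end Pool.Agent.H87.RP.GN3
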